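import Pool.Agent.W819.Kep.Count

/-! From the space configuration to coordinates. -/

set_option autoImplicit false

noncomputable section

namespace Pool.Agent.W819.Kep

open Set

abbrev E3 : Type := EuclideanSpace ℝ (Fin 3)

lemma exists_third (A B : E3) (hA : ‖A‖ = 1) (hB : ‖B‖ = 1) (hAB : inner ℝ A B = 0) :
    ∃ C : E3, ∀ x y : E3, inner ℝ x A * inner ℝ A y + inner ℝ x B * inner ℝ B y +
      inner ℝ x C * inner ℝ C y = inner ℝ x y := by
  have hv : Orthonormal ℝ (({0, 1} : Set (Fin 3)).domRestrict (![A, B, 0] : Fin 3 → E3)) := by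
    rw [orthonormal_iff_ite]
    rintro ⟨i, hi⟩ ⟨j, hj⟩
    have hBA : inner ℝ B A = 0 := by rw [real_inner_comm]; exact hAB
    rcases hi with rfl | hi <;> rcases hj with rfl | hj
    · simp [Set.domRestrict, hA]
    · rw [Set.mem_singleton_iff] at hj
      subst hj
      simp only [Set.domRestrict, Matrix.cons_val_zero, Matrix.cons_val_one, hAB]
      rw [if_neg]
      intro h
      exact absurd (congrArg Subtype.val h) (by simp)
    · rw [Set.mem_singleton_iff] at hi
      subst hi
      simp only [Set.domRestrict, Matrix.cons_val_zero, Matrix.cons_val_one, hBA]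
      rw [if_neg]
      intro h
      exact absurd (congrArg Subtype.val h) (by simp)
    · rw [Set.mem_singleton_iff] at hi hj
      subst hi hj
      simp [Set.domRestrict, hB]
  obtain ⟨b, hb⟩ := hv.exists_orthonormalBasis_extension_of_card_eq (by simp)
  refine ⟨b 2, fun x y => ?_⟩
  have h0 : b 0 = A := by rw [hb 0 (by simp)]; simp
  have h1 : b 1 = B := by rw [hb 1 (by simp)]; simp
  have := b.sum_inner_mul_inner x y
  rw [Fin.sum_univ_three, h0, h1] at this
  exact this

theorem crit_le_ten (F u w A B : E3) (a e R : ℝ) (ha : 0 < a) (he0 : 0 < e) (he1 : e < 1)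
    (hR : 0 < R) (hu : ‖u‖ = 1) (hw : ‖w‖ = 1) (huw : inner ℝ u w = 0)
    (hA : ‖A‖ = 1) (hB : ‖B‖ = 1) (hAB : inner ℝ A B = 0) (P P' Q Q' : ℝ → E3)
    (hP : ∀ s : ℝ, P s = F + (a * (e + Real.cos s)) • u +
      (a * Real.sqrt (1 - e ^ 2) * Real.sin s) • w)
    (hP' : ∀ s : ℝ, P' s = (-(a * Real.sin s)) • u +
      (a * Real.sqrt (1 - e ^ 2) * Real.cos s) • w)
    (hQ : ∀ t : ℝ, Q t = F + (R * Real.cos t) • A + (R * Real.sin t) • B)
    (hQ' : ∀ t : ℝ, Q' t = (-(R * Real.sin t)) • A + (R * Real.cos t) • B) :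
    {x : E3 × E3 | ∃ s t : ℝ, x = (P s, Q t) ∧ inner ℝ (P s - Q t) (P' s) = 0 ∧
      inner ℝ (P s - Q t) (Q' t) = 0}.encard ≤ 10 := by
  obtain ⟨C, hC⟩ := exists_third A B hA hB hAB
  have hAA : inner ℝ A A = 1 := by rw [real_inner_self_eq_norm_sq, hA]; norm_num
  have hBB : inner ℝ B B = 1 := by rw [real_inner_self_eq_norm_sq, hB]; norm_num
  have huu : inner ℝ u u = 1 := by rw [real_inner_self_eq_norm_sq, hu]; norm_num
  have hww : inner ℝ w w = 1 := by rw [real_inner_self_eq_norm_sq, hw]; norm_num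
  have hBA : inner ℝ B A = 0 := by rw [real_inner_comm]; exact hAB
  have hwu : inner ℝ w u = 0 := by rw [real_inner_comm]; exact huw
  have hG : Gram (-inner ℝ u A) (-inner ℝ u B) (inner ℝ w A) (inner ℝ w B)
      (-inner ℝ u C) (inner ℝ w C) := by
    have h1 := hC u u
    have h2 := hC w w
    have h3 := hC u w
    rw [huu, real_inner_comm u A, real_inner_comm u B, real_inner_comm u C] at h1
    rw [hww, real_inner_comm w A, real_inner_comm w B, real_inner_comm w C] at h2
    rw [huw, real_inner_comm w A, real_inner_comm w B, real_inner_comm w C] at h3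
    refine ⟨by linear_combination h1, by linear_combination h2, by linear_combination -h3⟩
  have hη : 0 < 1 - e ^ 2 := by nlinarith
  have hL : 0 < a * (1 - e ^ 2) := mul_pos ha hη
  have main := Sol_le_ten he0 he1 hL hR hG
  refine le_trans ?_ main
  refine le_trans (Set.encard_le_encard ?_) (Set.encard_image_le
    (fun p : ℝ × ℝ × ℝ × ℝ => (F + (a * (1 - e ^ 2) / (1 + e * p.1)) • (p.1 • (-u) + p.2.1 • w),
      F + R • (p.2.2.1 • A + p.2.2.2 • B))) _)
  rintro x ⟨s, t, rfl, h1, h2⟩
  obtain ⟨η, hηd⟩ : ∃ η, η = Real.sqrt (1 - e ^ 2) := ⟨_, rfl⟩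
  have hη0 : 0 < η := by rw [hηd]; exact Real.sqrt_pos.2 hη
  have hη2 : η ^ 2 = 1 - e ^ 2 := by rw [hηd]; exact Real.sq_sqrt hη.le
  have hcs := Real.cos_sq_add_sin_sq s
  have hct := Real.cos_sq_add_sin_sq t
  have hD : 0 < 1 + e * Real.cos s := by
    have := Real.neg_one_le_cos s
    nlinarith
  rw [hP, hQ, hP', ← hηd] at h1
  rw [hP, hQ, hQ', ← hηd] at h2
  rw [hP, hQ, ← hηd]
  simp only [inner_add_left, inner_add_right, inner_sub_left, inner_smul_left, inner_smul_right,
    huu, hww, huw, hwu, RCLike.conj_to_real] at h1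
  simp only [inner_add_left, inner_add_right, inner_sub_left, inner_smul_left, inner_smul_right,
    hAA, hBB, hAB, hBA, RCLike.conj_to_real] at h2
  rw [real_inner_comm u A, real_inner_comm w A, real_inner_comm u B, real_inner_comm w B] at h1
  generalize Real.cos s = c at *
  generalize Real.sin s = σ at *
  generalize Real.cos t = q1 at *
  generalize Real.sin t = q2 at *
  generalize inner ℝ u A = uA at *
  generalize inner ℝ u B = uB at *
  generalize inner ℝ w A = wA at *
  generalize inner ℝ w B = wB at *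
  generalize inner ℝ F u = x1 at *
  generalize inner ℝ F w = x2 at *
  generalize inner ℝ F A = x3 at *
  generalize inner ℝ F B = x4 at *
  have hD' := hD.ne'
  have hX : 1 + e * (-(c + e) / (1 + e * c)) = (1 - e ^ 2) / (1 + e * c) := by
    field_simp
    ring
  have hXe : -(c + e) / (1 + e * c) + e = -(c * η ^ 2) / (1 + e * c) := by
    rw [div_add' _ _ _ hD', div_left_inj' hD', hη2]
    ring
  have h1' : R * (q1 * (σ * uA - c * η * wA) + q2 * (σ * uB - c * η * wB)) =
      a * σ * e * (1 + e * c) := by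
    have h3 : a * (R * (q1 * (σ * uA - c * η * wA) + q2 * (σ * uB - c * η * wB)) -
        a * σ * e * (1 + e * c)) = 0 := by
      linear_combination h1 - a ^ 2 * σ * c * hη2
    have h4 := (mul_eq_zero.1 h3).resolve_left ha.ne'
    linarith
  have h2' : q1 * ((c + e) * uB + η * σ * wB) = q2 * ((c + e) * uA + η * σ * wA) := by
    have h3 : R * a * (q1 * ((c + e) * uB + η * σ * wB) -
        q2 * ((c + e) * uA + η * σ * wA)) = 0 := by
      linear_combination h2
    have h4 := (mul_eq_zero.1 h3).resolve_left (by positivity)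
    linarith
  refine ⟨(-(c + e) / (1 + e * c), η * σ / (1 + e * c), q1, q2), ⟨?_, ?_, ?_, ?_⟩, ?_⟩
  · simp only
    rw [div_pow, div_pow, ← add_div, div_eq_one_iff_eq (pow_ne_zero 2 hD')]
    linear_combination σ ^ 2 * hη2 + (1 - e ^ 2) * hcs
  · simp only
    exact hct
  · simp only
    calc q1 * (-(c + e) / (1 + e * c) * -uB + η * σ / (1 + e * c) * wB)
        = (q1 * ((c + e) * uB + η * σ * wB)) / (1 + e * c) := by ring
      _ = (q2 * ((c + e) * uA + η * σ * wA)) / (1 + e * c) := by rw [h2']
      _ = q2 * (-(c + e) / (1 + e * c) * -uA + η * σ / (1 + e * c) * wA) := by ring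
  · simp only [kk]
    rw [hX, hXe]
    calc a * (1 - e ^ 2) * e * (η * σ / (1 + e * c))
        = (1 - e ^ 2) * η / (1 + e * c) ^ 2 * (a * σ * e * (1 + e * c)) := by
          field_simp
      _ = (1 - e ^ 2) * η / (1 + e * c) ^ 2 *
          (R * (q1 * (σ * uA - c * η * wA) + q2 * (σ * uB - c * η * wB))) := by rw [h1']
      _ = _ := by
          generalize 1 + e * c = D
          ring
  · simp only
    rw [hX]
    have k1 : a * (1 - e ^ 2) / ((1 - e ^ 2) / (1 + e * c)) = a * (1 + e * c) := by
      field_simp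
    have k2 : a * (1 + e * c) * (-(c + e) / (1 + e * c)) = -(a * (e + c)) := by
      field_simp
      ring
    have k3 : a * (1 + e * c) * (η * σ / (1 + e * c)) = a * η * σ := by
      field_simp
    rw [k1, smul_add, smul_smul, smul_smul, k2, k3, smul_add, smul_smul, smul_smul, neg_smul_neg,
      add_assoc, add_assoc]

end Pool.Agent.W819.Kep
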