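import Pool.Agent.W819.Kep.Rolle

/-! The functions on the half circle `θ ∈ (0, π)`. -/

set_option autoImplicit false

noncomputable section

namespace Pool.Agent.W819.Kep

open Set

def kk (e X : ℝ) : ℝ := 1 + e * X
def nu (N1 N2 X Y : ℝ) : ℝ := N1 * X + N2 * Y
def qq (N1 N2 X Y : ℝ) : ℝ := 1 - nu N1 N2 X Y ^ 2
def BB (e N1 N2 X Y : ℝ) : ℝ := e * Y + nu N1 N2 X Y * (N1 * Y - N2 * (X + e))
def DD (e N1 N2 X Y : ℝ) : ℝ :=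
  -(e + X) * qq N1 N2 X Y * BB e N1 N2 X Y +
    kk e X * Y * ((1 - N1 ^ 2 - N2 ^ 2) * kk e X - qq N1 N2 X Y ^ 2)
def LL (e X : ℝ) : ℝ := 1 + e ^ 2 + e * (5 * X - 5 * X ^ 3 + 2 * X ^ 5)

/-- derivative of `qq` along the circle -/
def dq (N1 N2 X Y : ℝ) : ℝ := -(2 * nu N1 N2 X Y * (N2 * X - N1 * Y))
/-- derivative of `BB` along the circle -/
def dB (e N1 N2 X Y : ℝ) : ℝ :=
  e * X + ((N2 * X - N1 * Y) * (N1 * Y - N2 * (X + e)) +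
    nu N1 N2 X Y * (N1 * X + N2 * Y))
/-- derivative of `DD` along the circle -/
def dD (e N1 N2 X Y : ℝ) : ℝ :=
  ((Y * qq N1 N2 X Y + -(e + X) * dq N1 N2 X Y) * BB e N1 N2 X Y +
      -(e + X) * qq N1 N2 X Y * dB e N1 N2 X Y) +
    ((-(e * Y) * Y + kk e X * X) * ((1 - N1 ^ 2 - N2 ^ 2) * kk e X - qq N1 N2 X Y ^ 2) +
      kk e X * Y * ((1 - N1 ^ 2 - N2 ^ 2) * (-(e * Y)) -
        2 * qq N1 N2 X Y * dq N1 N2 X Y))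

section deriv
variable (e N1 N2 θ : ℝ)

lemma hd_k : HasDerivAt (fun t => kk e (Real.cos t)) (-(e * Real.sin θ)) θ := by
  have h := ((Real.hasDerivAt_cos θ).const_mul e).const_add 1
  refine h.congr_deriv ?_
  ring

lemma hd_nu : HasDerivAt (fun t => nu N1 N2 (Real.cos t) (Real.sin t))
    (N2 * Real.cos θ - N1 * Real.sin θ) θ := by
  have h := ((Real.hasDerivAt_cos θ).const_mul N1).add ((Real.hasDerivAt_sin θ).const_mul N2)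
  refine h.congr_deriv ?_
  ring

lemma hd_q : HasDerivAt (fun t => qq N1 N2 (Real.cos t) (Real.sin t))
    (dq N1 N2 (Real.cos θ) (Real.sin θ)) θ := by
  have h := ((hd_nu N1 N2 θ).pow 2).const_sub 1
  refine h.congr_deriv ?_
  simp only [dq]
  push_cast
  ring

lemma hd_B : HasDerivAt (fun t => BB e N1 N2 (Real.cos t) (Real.sin t))
    (dB e N1 N2 (Real.cos θ) (Real.sin θ)) θ := by
  have h1 : HasDerivAt (fun t => N1 * Real.sin t - N2 * (Real.cos t + e))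
      (N1 * Real.cos θ + N2 * Real.sin θ) θ := by
    have h := ((Real.hasDerivAt_sin θ).const_mul N1).sub
      (((Real.hasDerivAt_cos θ).add_const e).const_mul N2)
    refine h.congr_deriv ?_
    ring
  exact ((Real.hasDerivAt_sin θ).const_mul e).add ((hd_nu N1 N2 θ).mul h1)

lemma hd_D : HasDerivAt (fun t => DD e N1 N2 (Real.cos t) (Real.sin t))
    (dD e N1 N2 (Real.cos θ) (Real.sin θ)) θ := by
  have h1 : HasDerivAt (fun t => -(e + Real.cos t)) (Real.sin θ) θ := by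
    have h := ((Real.hasDerivAt_cos θ).const_add e).neg
    refine h.congr_deriv ?_
    ring
  have h2 := (h1.mul (hd_q N1 N2 θ)).mul (hd_B e N1 N2 θ)
  have h3 := (hd_k e θ).mul (Real.hasDerivAt_sin θ)
  have h4 : HasDerivAt (fun t => (1 - N1 ^ 2 - N2 ^ 2) * kk e (Real.cos t) -
      qq N1 N2 (Real.cos t) (Real.sin t) ^ 2)
      ((1 - N1 ^ 2 - N2 ^ 2) * (-(e * Real.sin θ)) -
        2 * qq N1 N2 (Real.cos θ) (Real.sin θ) * dq N1 N2 (Real.cos θ) (Real.sin θ)) θ := by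
    have h := ((hd_k e θ).const_mul (1 - N1 ^ 2 - N2 ^ 2)).sub ((hd_q N1 N2 θ).pow 2)
    refine h.congr_deriv ?_
    push_cast
    ring
  exact h2.add (h3.mul h4)

lemma hd_L : HasDerivAt (fun t => LL e (Real.cos t))
    (-(Real.sin θ) * (e * (5 - 15 * Real.cos θ ^ 2 + 10 * Real.cos θ ^ 4))) θ := by
  have hc := Real.hasDerivAt_cos θ
  have h := ((((hc.const_mul 5).sub ((hc.pow 3).const_mul 5)).add
    ((hc.pow 5).const_mul 2)).const_mul e).const_add (1 + e ^ 2)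
  refine h.congr_deriv ?_
  push_cast
  ring

end deriv

theorem key1 (e N1 N2 X Y : ℝ) (h : X ^ 2 + Y ^ 2 = 1) :
    dD e N1 N2 X Y * Y - 3 * DD e N1 N2 X Y * X =
      -3 * qq N1 N2 X Y * (N1 * N2 * LL e X - e * (N1 ^ 2 - N2 ^ 2) * Y ^ 5) := by
  simp only [dD, DD, dB, BB, dq, qq, nu, kk, LL]
  linear_combination (-3*N1*N2 - 15*N1*N2*X*e - 3*N1*N2*X^2 - 3*N1*N2*Y^2 - 3*N1*N2*e^2
    - 2*N1^2*X*Y - 2*N2^2*X*Y - 2*X*Y*e^2 - 12*N1*N2*X*Y^2*e + 6*N1*N2*X^3*e - 2*N1*N2*Y^2*e^2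
    + 3*N1*N2^3*Y^2 + 6*N1^2*N2^2*X*Y - 6*N1^2*X^2*Y*e - 3*N1^2*Y^3*e + 3*N1^3*N2*X^2
    + 2*N2^2*X*Y*e^2 + 15*N1*N2^3*X*Y^2*e + 3*N1*N2^3*X^2*Y^2 + 3*N1*N2^3*Y^2*e^2
    + 3*N1*N2^3*Y^4 + 6*N1^2*N2^2*X*Y*e^2 + 6*N1^2*N2^2*X*Y^3 + 30*N1^2*N2^2*X^2*Y*e
    + 6*N1^2*N2^2*X^3*Y + 3*N1^3*N2*X^2*Y^2 + 3*N1^3*N2*X^2*e^2 + 15*N1^3*N2*X^3*e
    + 3*N1^3*N2*X^4 + 2*N1*N2^3*X*Y^4*e - 6*N1*N2^3*X^3*Y^2*e + 12*N1^2*N2^2*X^2*Y^3*e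
    - 12*N1^2*N2^2*X^4*Y*e + 3*N1^2*N2^2*Y^5*e + 6*N1^3*N2*X*Y^4*e + 10*N1^3*N2*X^3*Y^2*e
    - 6*N1^3*N2*X^5*e + 3*N1^4*X^2*Y^3*e + 2*N1^4*X^4*Y*e - 2*N2^4*Y^5*e) * h

theorem key2 (e N1 N2 X Y : ℝ) (h : X ^ 2 + Y ^ 2 = 1) :
    (-(e * Y) * BB e N1 N2 X Y + kk e X * dB e N1 N2 X Y) * (Y * qq N1 N2 X Y) -
      kk e X * BB e N1 N2 X Y * (X * qq N1 N2 X Y + Y * dq N1 N2 X Y / 2) =
      DD e N1 N2 X Y := by
  simp only [DD, dB, BB, dq, qq, nu, kk]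
  linear_combination (-N1^2*Y - N2^2*Y - Y*e^2 + N1*N2*X*e^2 + N1*N2*X^2*e - 2*N1*N2*Y^2*e
    - 3*N1^2*X*Y*e + N2^2*Y*e^2 + N1*N2*X*Y^2*e^2 + N2^2*Y^3*e^2 - 3*N1*N2^3*X*Y^2*e^2
    - 3*N1*N2^3*X^2*Y^2*e + N1*N2^3*Y^4*e + 3*N1^2*N2^2*X*Y^3*e - 3*N1^2*N2^2*X^2*Y*e^2
    - 3*N1^2*N2^2*X^3*Y*e + 3*N1^3*N2*X^2*Y^2*e - N1^3*N2*X^3*e^2 - N1^3*N2*X^4*e
    + N1^4*X^3*Y*e - N2^4*X*Y^3*e - N2^4*Y^3*e^2) * h

end Pool.Agent.W819.Kep
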