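import Pool.Agent.W819.Kep.ZerosB

/-! The number of solutions on the half circle. -/

set_option autoImplicit false

noncomputable section

namespace Pool.Agent.W819.Kep

open Set Polynomial

/-- solutions on the half circle, squared form -/
def EE (e N1 N2 L R : ℝ) : Set ℝ :=
  {θ ∈ Ioo 0 Real.pi | (R * (kk e (Real.cos θ) * BB e N1 N2 (Real.cos θ) (Real.sin θ))) ^ 2 =
    (L * e) ^ 2 * (Real.sin θ ^ 2 * qq N1 N2 (Real.cos θ) (Real.sin θ))}

lemma hd_Phi (e N1 N2 : ℝ) {θ : ℝ} (h : θ ∈ Ioo 0 Real.pi)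
    (hq : 0 < qq N1 N2 (Real.cos θ) (Real.sin θ)) :
    HasDerivAt (fun t => (kk e (Real.cos t) * BB e N1 N2 (Real.cos t) (Real.sin t)) ^ 2 /
      (Real.sin t ^ 2 * qq N1 N2 (Real.cos t) (Real.sin t)))
      (2 * (kk e (Real.cos θ) * BB e N1 N2 (Real.cos θ) (Real.sin θ)) *
        DD e N1 N2 (Real.cos θ) (Real.sin θ) /
        (Real.sin θ ^ 3 * qq N1 N2 (Real.cos θ) (Real.sin θ) ^ 2)) θ := by
  have hs := (sin_pos' h).ne'
  have hq' := hq.ne'
  have h1 := (((hd_k e θ).mul (hd_B e N1 N2 θ)).pow 2).div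
    (((Real.hasDerivAt_sin θ).pow 2).mul (hd_q N1 N2 θ)) (mul_ne_zero (pow_ne_zero 2 hs) hq')
  refine h1.congr_deriv ?_
  have hk := key2 e N1 N2 (Real.cos θ) (Real.sin θ) (cs_sq θ)
  clear h1
  simp only [Pi.pow_apply, Pi.mul_apply, Nat.cast_ofNat, Nat.reduceSub, pow_one]
  generalize Real.cos θ = X at *
  generalize Real.sin θ = Y at *
  generalize kk e X = k at *
  generalize BB e N1 N2 X Y = B at *
  generalize dB e N1 N2 X Y = B' at *
  generalize DD e N1 N2 X Y = D at *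
  generalize dq N1 N2 X Y = q' at *
  generalize qq N1 N2 X Y = q at *
  rw [← hk]
  field_simp

theorem EE_le {e N1 N2 L R : ℝ} (he0 : 0 < e) (he1 : e < 1) (hR : 0 < R)
    (hN1 : N1 ^ 2 + N2 ^ 2 < 1) (n m : ℕ) (hn : (ZB e N1 N2).encard ≤ n)
    (hm : (ZD e N1 N2).encard ≤ m) : (EE e N1 N2 L R).encard ≤ ((n + m : ℕ) : ℕ∞) + 1 := by
  have hq : ∀ θ : ℝ, 0 < qq N1 N2 (Real.cos θ) (Real.sin θ) := fun θ => qq_pos hN1 (cs_sq θ)
  have hsub : EE e N1 N2 L R ⊆ {θ ∈ Ioo 0 Real.pi |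
      (fun t => (kk e (Real.cos t) * BB e N1 N2 (Real.cos t) (Real.sin t)) ^ 2 /
      (Real.sin t ^ 2 * qq N1 N2 (Real.cos t) (Real.sin t)) - (L * e / R) ^ 2) θ = 0} := by
    rintro θ ⟨h1, h2⟩
    refine ⟨h1, ?_⟩
    have hs := (sin_pos' h1).ne'
    have hq' := (hq θ).ne'
    simp only
    rw [sub_eq_zero, div_eq_iff (mul_ne_zero (pow_ne_zero 2 hs) hq'), div_pow, div_mul_eq_mul_div,
      eq_div_iff (by positivity)]
    linear_combination h2
  refine (Set.encard_le_encard hsub).trans ?_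
  refine rolle_le (f' := fun θ => 2 * (kk e (Real.cos θ) * BB e N1 N2 (Real.cos θ) (Real.sin θ)) *
        DD e N1 N2 (Real.cos θ) (Real.sin θ) /
        (Real.sin θ ^ 3 * qq N1 N2 (Real.cos θ) (Real.sin θ) ^ 2))
    (fun θ hθ => (hd_Phi e N1 N2 hθ (hq θ)).sub_const _) (n + m) ?_
  have hsub2 : {x ∈ Ioo 0 Real.pi | 2 * (kk e (Real.cos x) *
      BB e N1 N2 (Real.cos x) (Real.sin x)) * DD e N1 N2 (Real.cos x) (Real.sin x) /
        (Real.sin x ^ 3 * qq N1 N2 (Real.cos x) (Real.sin x) ^ 2) = 0} ⊆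
      ZB e N1 N2 ∪ ZD e N1 N2 := by
    rintro θ ⟨h1, h2⟩
    have hs := sin_pos' h1
    have hq' := hq θ
    have hk := kk_pos he0 he1 (Real.neg_one_le_cos θ)
    rcases div_eq_zero_iff.1 h2 with h | h
    · rcases mul_eq_zero.1 h with h | h
      · left
        refine ⟨h1, ?_⟩
        rcases mul_eq_zero.1 h with h | h
        · norm_num at h
        · rcases mul_eq_zero.1 h with h | h
          · exact absurd h hk.ne'
          · exact h
      · right
        exact ⟨h1, h⟩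
    · exact absurd h (by positivity)
  refine (Set.encard_le_encard hsub2).trans ((Set.encard_union_le _ _).trans ?_)
  push_cast
  exact add_le_add hn hm

/-! ### perpendicular planes -/

def bb (e N1 N2 X Y : ℝ) : ℝ := N1 * X + N2 * Y + e * N1
def L3 (e X : ℝ) : ℝ := 1 + e ^ 2 + 3 * e * X - e * X ^ 3
def GG (e N1 N2 X Y : ℝ) : ℝ := N1 * L3 e X + e * N2 * Y ^ 3

def Zb (e N1 N2 : ℝ) : Set ℝ :=
  {θ ∈ Ioo 0 Real.pi | bb e N1 N2 (Real.cos θ) (Real.sin θ) = 0}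
def ZG (e N1 N2 : ℝ) : Set ℝ :=
  {θ ∈ Ioo 0 Real.pi | GG e N1 N2 (Real.cos θ) (Real.sin θ) = 0}

/-- solutions on the half circle, perpendicular planes -/
def EG (e N1 N2 L R : ℝ) : Set ℝ :=
  {θ ∈ Ioo 0 Real.pi | (R * (kk e (Real.cos θ) * bb e N1 N2 (Real.cos θ) (Real.sin θ))) ^ 2 =
    (L * e * Real.sin θ) ^ 2}

lemma L3_pos {e X : ℝ} (he0 : 0 < e) (he1 : e < 1) (hX : -1 ≤ X) (hX1 : X ≤ 1) :
    0 < L3 e X := by
  have h1 : L3 e X = (1 - e) ^ 2 + e * ((X + 1) ^ 2 * (2 - X)) := by unfold L3; ring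
  rw [h1]
  have h2 : 0 < (1 - e) ^ 2 := by
    have : 0 < 1 - e := by linarith
    positivity
  have h3 : 0 ≤ e * ((X + 1) ^ 2 * (2 - X)) :=
    mul_nonneg he0.le (mul_nonneg (sq_nonneg _) (by linarith))
  linarith

lemma coeff2 (a b c : ℝ) : (C a * X ^ 2 + C b * X + C c : ℝ[X]).coeff 2 = a := by
  simp [coeff_X, coeff_C]

theorem Zb_total {e N1 N2 : ℝ} (he1 : e < 1) (hN : N1 ≠ 0) :
    ∃ n m : ℕ, n + m ≤ 2 ∧ (Zb e N1 N2).encard ≤ n ∧ (Zb e N1 (-N2)).encard ≤ m := by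
  set p : ℝ[X] := C (-(N1 * (1 - e))) * X ^ 2 + C (2 * N2) * X + C (N1 * (1 + e)) with hp
  have hdeg : p.natDegree ≤ 2 := by
    rw [hp]
    compute_degree
  have hp0 : p ≠ 0 := by
    intro h
    have hcoef := coeff2 (-(N1 * (1 - e))) (2 * N2) (N1 * (1 + e))
    rw [← hp, h, coeff_zero] at hcoef
    have : N1 * (1 - e) ≠ 0 := mul_ne_zero hN (by linarith)
    apply this; linarith
  have hev : ∀ t X Y : ℝ, X * (1 + t ^ 2) = 1 - t ^ 2 → Y * (1 + t ^ 2) = 2 * t →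
      p.eval t = (1 + t ^ 2) * bb e N1 N2 X Y := by
    intro t x y hx hy
    rw [hp]
    simp only [eval_add, eval_mul, eval_C, eval_X, eval_pow]
    simp only [bb]
    linear_combination -N1 * hx - N2 * hy
  refine count_poly p hp0 2 hdeg _ _ ?_ ?_
  · rintro θ ⟨h1, h2⟩
    refine ⟨h1, ?_⟩
    obtain ⟨_, hx, hy⟩ := half_angle h1
    rw [hev _ _ _ hx hy, h2, mul_zero]
  · rintro θ ⟨h1, h2⟩
    refine ⟨h1, ?_⟩
    obtain ⟨_, hx, hy⟩ := half_angle h1
    have hx' : Real.cos θ * (1 + (-Real.tan (θ / 2)) ^ 2) = 1 - (-Real.tan (θ / 2)) ^ 2 := by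
      rw [neg_sq]; exact hx
    have hy' : -Real.sin θ * (1 + (-Real.tan (θ / 2)) ^ 2) = 2 * (-Real.tan (θ / 2)) := by
      rw [neg_sq]; linarith
    rw [hev _ _ _ hx' hy']
    have : bb e N1 N2 (Real.cos θ) (-Real.sin θ) = bb e N1 (-N2) (Real.cos θ) (Real.sin θ) := by
      simp only [bb]; ring
    rw [this, h2]; simp

lemma hd_L3q (e N1 N2 : ℝ) {θ : ℝ} (h : θ ∈ Ioo 0 Real.pi) :
    HasDerivAt (fun t => N1 * (L3 e (Real.cos t) / Real.sin t ^ 3) + e * N2)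
      (N1 * (-3 * (Real.cos θ + e) * kk e (Real.cos θ) / Real.sin θ ^ 4)) θ := by
  have hs := (sin_pos' h).ne'
  have hc := Real.hasDerivAt_cos θ
  have hL : HasDerivAt (fun t => L3 e (Real.cos t))
      (-(Real.sin θ) * (3 * e - 3 * e * Real.cos θ ^ 2)) θ := by
    have h := ((hc.const_mul (3 * e)).const_add (1 + e ^ 2)).sub ((hc.pow 3).const_mul e)
    refine h.congr_deriv ?_
    push_cast
    ring
  have h1 := ((hL.div ((Real.hasDerivAt_sin θ).pow 3) (pow_ne_zero 3 hs)).const_mul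
    N1).add_const (e * N2)
  refine h1.congr_deriv ?_
  congr 1
  have hcs := cs_sq θ
  clear h1 hL hc
  simp only [Pi.pow_apply, Nat.cast_ofNat, Nat.reduceSub, kk, L3]
  generalize Real.cos θ = X at *
  generalize Real.sin θ = Y at *
  field_simp
  linear_combination (-(e * (1 - X ^ 2))) * hcs

lemma ZG_eq (e N1 N2 : ℝ) : ZG e N1 N2 = {θ ∈ Ioo 0 Real.pi |
    (fun t => N1 * (L3 e (Real.cos t) / Real.sin t ^ 3) + e * N2) θ = 0} := by
  ext θ
  unfold ZG
  constructor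
  · rintro ⟨h1, h2⟩
    refine ⟨h1, ?_⟩
    have hs := (sin_pos' h1).ne'
    simp only [GG] at *
    field_simp
    linarith
  · rintro ⟨h1, h2⟩
    refine ⟨h1, ?_⟩
    have hs := (sin_pos' h1).ne'
    simp only [GG] at *
    field_simp at h2
    linarith

lemma ZG_le_two {e N1 N2 : ℝ} (he0 : 0 < e) (he1 : e < 1) (hN : N1 ≠ 0) :
    (ZG e N1 N2).encard ≤ ((1 : ℕ) : ℕ∞) + 1 := by
  rw [ZG_eq]
  refine rolle_le (fun θ hθ => hd_L3q e N1 N2 hθ) 1 ?_
  refine (Set.encard_le_encard ?_).trans (cos_unique (-e))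
  rintro θ ⟨h1, h2⟩
  refine ⟨h1, ?_⟩
  have hs := sin_pos' h1
  have hk := kk_pos he0 he1 (Real.neg_one_le_cos θ)
  rcases mul_eq_zero.1 h2 with h | h
  · exact absurd h hN
  · rcases div_eq_zero_iff.1 h with h | h
    · rcases mul_eq_zero.1 h with h | h
      · linarith
      · exact absurd h hk.ne'
    · exact absurd h (by positivity)

lemma ZG_zero {e N1 N2 : ℝ} (he0 : 0 < e) (he1 : e < 1) (hN1 : N1 ≠ 0) (hN : 0 ≤ N1 * N2) :
    (ZG e N1 N2).encard ≤ ((0 : ℕ) : ℕ∞) := by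
  have : ZG e N1 N2 = ∅ := by
    ext θ
    simp only [ZG, mem_ofPred_eq, mem_empty_iff_false, iff_false, not_and]
    intro hθ h
    have hs := sin_pos' hθ
    have hL := L3_pos he0 he1 (Real.neg_one_le_cos θ) (Real.cos_le_one θ)
    unfold GG at h
    have h1 : N1 ^ 2 * L3 e (Real.cos θ) + e * (N1 * N2) * Real.sin θ ^ 3 = 0 := by
      linear_combination N1 * h
    have h2 : 0 < N1 ^ 2 * L3 e (Real.cos θ) := by positivity
    have h3 : 0 ≤ e * (N1 * N2) * Real.sin θ ^ 3 := by positivity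
    linarith
  rw [this]; simp

theorem ZG_total {e N1 N2 : ℝ} (he0 : 0 < e) (he1 : e < 1) (hN : N1 ≠ 0) :
    ∃ n m : ℕ, n + m ≤ 2 ∧ (ZG e N1 N2).encard ≤ n ∧ (ZG e N1 (-N2)).encard ≤ m := by
  rcases le_total 0 (N1 * N2) with h | h
  · exact ⟨0, 2, by norm_num, ZG_zero he0 he1 hN h, (ZG_le_two he0 he1 hN).trans (by norm_num)⟩
  · exact ⟨2, 0, by norm_num, (ZG_le_two he0 he1 hN).trans (by norm_num),
      ZG_zero he0 he1 hN (by linarith)⟩

lemma hd_bq (e N1 N2 : ℝ) {θ : ℝ} (h : θ ∈ Ioo 0 Real.pi) :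
    HasDerivAt (fun t => (kk e (Real.cos t) * bb e N1 N2 (Real.cos t) (Real.sin t) /
      Real.sin t) ^ 2)
      (-(2 * (kk e (Real.cos θ) * bb e N1 N2 (Real.cos θ) (Real.sin θ)) *
        GG e N1 N2 (Real.cos θ) (Real.sin θ) / Real.sin θ ^ 3)) θ := by
  have hs := (sin_pos' h).ne'
  have hb : HasDerivAt (fun t => bb e N1 N2 (Real.cos t) (Real.sin t))
      (N2 * Real.cos θ - N1 * Real.sin θ) θ := by
    have h := (hd_nu N1 N2 θ).add_const (e * N1)
    exact h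
  have h1 := (((hd_k e θ).mul hb).div (Real.hasDerivAt_sin θ) hs).pow 2
  refine h1.congr_deriv ?_
  have hcs := cs_sq θ
  clear h1 hb
  simp only [Pi.pow_apply, Pi.mul_apply, Pi.div_apply, Nat.cast_ofNat, Nat.reduceSub, pow_one]
  have hid : ∀ X Y : ℝ, X ^ 2 + Y ^ 2 = 1 →
      (-(e * Y) * bb e N1 N2 X Y + kk e X * (N2 * X - N1 * Y)) * Y -
        kk e X * bb e N1 N2 X Y * X = -GG e N1 N2 X Y := by
    intro X Y h
    simp only [bb, kk, GG, L3]
    linear_combination (-N1 - 2 * N1 * X * e - N1 * e ^ 2) * h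
  have hid' := hid _ _ hcs
  generalize Real.cos θ = X at *
  generalize Real.sin θ = Y at *
  generalize kk e X = k at *
  generalize bb e N1 N2 X Y = b at *
  generalize GG e N1 N2 X Y = g at *
  have hg : g = -((-(e * Y) * b + k * (N2 * X - N1 * Y)) * Y - k * b * X) := by
    rw [hid']; ring
  rw [hg]
  field_simp

theorem EG_le {e N1 N2 L R : ℝ} (he0 : 0 < e) (he1 : e < 1) (hR : 0 < R)
    (n m : ℕ) (hn : (Zb e N1 N2).encard ≤ n)
    (hm : (ZG e N1 N2).encard ≤ m) : (EG e N1 N2 L R).encard ≤ ((n + m : ℕ) : ℕ∞) + 1 := by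
  have hsub : EG e N1 N2 L R ⊆ {θ ∈ Ioo 0 Real.pi |
      (fun t => (kk e (Real.cos t) * bb e N1 N2 (Real.cos t) (Real.sin t) /
      Real.sin t) ^ 2 - (L * e / R) ^ 2) θ = 0} := by
    rintro θ ⟨h1, h2⟩
    refine ⟨h1, ?_⟩
    have hs := (sin_pos' h1).ne'
    simp only
    rw [sub_eq_zero, div_pow, div_pow, div_eq_div_iff (by positivity) (by positivity)]
    linear_combination h2
  refine (Set.encard_le_encard hsub).trans ?_
  refine rolle_le (f' := fun θ => -(2 * (kk e (Real.cos θ) *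
        bb e N1 N2 (Real.cos θ) (Real.sin θ)) *
        GG e N1 N2 (Real.cos θ) (Real.sin θ) / Real.sin θ ^ 3))
    (fun θ hθ => (hd_bq e N1 N2 hθ).sub_const _) (n + m) ?_
  have hsub2 : {x ∈ Ioo 0 Real.pi | -(2 * (kk e (Real.cos x) *
        bb e N1 N2 (Real.cos x) (Real.sin x)) *
        GG e N1 N2 (Real.cos x) (Real.sin x) / Real.sin x ^ 3) = 0} ⊆
      Zb e N1 N2 ∪ ZG e N1 N2 := by
    rintro θ ⟨h1, h2⟩
    have hs := sin_pos' h1
    have hk := kk_pos he0 he1 (Real.neg_one_le_cos θ)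
    rw [neg_eq_zero] at h2
    rcases div_eq_zero_iff.1 h2 with h | h
    · rcases mul_eq_zero.1 h with h | h
      · left
        refine ⟨h1, ?_⟩
        rcases mul_eq_zero.1 h with h | h
        · norm_num at h
        · rcases mul_eq_zero.1 h with h | h
          · exact absurd h hk.ne'
          · exact h
      · right
        exact ⟨h1, h⟩
    · exact absurd h (by positivity)
  refine (Set.encard_le_encard hsub2).trans ((Set.encard_union_le _ _).trans ?_)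
  push_cast
  exact add_le_add hn hm

end Pool.Agent.W819.Kep
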