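import Pool.Agent.W819.Kep.Arcs

/-! Counting the critical configurations in the plane coordinates. -/

set_option autoImplicit false

noncomputable section

namespace Pool.Agent.W819.Kep

open Set

/-- critical configurations in coordinates -/
def Sol (e L R a1 a2 b1 b2 : ℝ) : Set (ℝ × ℝ × ℝ × ℝ) :=
  {p | p.1 ^ 2 + p.2.1 ^ 2 = 1 ∧ p.2.2.1 ^ 2 + p.2.2.2 ^ 2 = 1 ∧
    p.2.2.1 * (p.1 * a2 + p.2.1 * b2) = p.2.2.2 * (p.1 * a1 + p.2.1 * b1) ∧
    L * e * p.2.1 = R * kk e p.1 * (p.2.2.1 * (-p.2.1 * a1 + (p.1 + e) * b1) +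
      p.2.2.2 * (-p.2.1 * a2 + (p.1 + e) * b2))}

/-- those on the upper half -/
def Up (e L R a1 a2 b1 b2 : ℝ) : Set (ℝ × ℝ × ℝ × ℝ) :=
  {p ∈ Sol e L R a1 a2 b1 b2 | 0 < p.2.1}

/-- Gram relations -/
def Gram (a1 a2 b1 b2 N1 N2 : ℝ) : Prop :=
  a1 ^ 2 + a2 ^ 2 + N1 ^ 2 = 1 ∧ b1 ^ 2 + b2 ^ 2 + N2 ^ 2 = 1 ∧ a1 * b1 + a2 * b2 + N1 * N2 = 0

lemma Gram.flip {a1 a2 b1 b2 N1 N2 : ℝ} (h : Gram a1 a2 b1 b2 N1 N2) :
    Gram a1 a2 (-b1) (-b2) N1 (-N2) := by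
  obtain ⟨h1, h2, h3⟩ := h
  refine ⟨h1, by linear_combination h2, by linear_combination -h3⟩

lemma Gram.mu {a1 a2 b1 b2 N1 N2 : ℝ} (h : Gram a1 a2 b1 b2 N1 N2) :
    N1 ^ 2 + N2 ^ 2 ≤ 1 := by
  obtain ⟨h1, h2, h3⟩ := h
  have h4 : (a1 * b2 - a2 * b1) ^ 2 = 1 - N1 ^ 2 - N2 ^ 2 := by
    linear_combination (b1 ^ 2 + b2 ^ 2) * h1 + (1 - N1 ^ 2) * h2 -
      (a1 * b1 + a2 * b2 - N1 * N2) * h3
  nlinarith [sq_nonneg (a1 * b2 - a2 * b1)]

lemma arc_of {X Y : ℝ} (h : X ^ 2 + Y ^ 2 = 1) (hY : 0 < Y) :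
    Real.cos (Real.arccos X) = X ∧ Real.sin (Real.arccos X) = Y ∧
      Real.arccos X ∈ Ioo 0 Real.pi := by
  have h1 : -1 < X := by nlinarith
  have h2 : X < 1 := by nlinarith
  refine ⟨Real.cos_arccos h1.le h2.le, ?_, ?_, ?_⟩
  · rw [Real.sin_arccos, show 1 - X ^ 2 = Y ^ 2 by linarith, Real.sqrt_sq hY.le]
  · exact Real.arccos_pos.2 h2
  · refine lt_of_le_of_ne (Real.arccos_le_pi X) (fun h3 => ?_)
    have := Real.arccos_eq_pi.1 h3
    linarith

lemma arc_inj {X Y X' Y' : ℝ} (h : X ^ 2 + Y ^ 2 = 1) (hY : 0 < Y) (h' : X' ^ 2 + Y' ^ 2 = 1)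
    (hY' : 0 < Y') (hE : Real.arccos X = Real.arccos X') : X = X' ∧ Y = Y' := by
  obtain ⟨h1, h2, _⟩ := arc_of h hY
  obtain ⟨h3, h4, _⟩ := arc_of h' hY'
  exact ⟨by rw [← h1, ← h3, hE], by rw [← h2, ← h4, hE]⟩

/-- a vector `w` parallel to `v ≠ 0` and orthogonal to `τ` with `v·τ ≠ 0` vanishes -/
lemma vec_zero {w1 w2 v1 v2 t1 t2 : ℝ} (hv : v1 ^ 2 + v2 ^ 2 ≠ 0) (hp : w1 * v2 = w2 * v1)
    (ht : w1 * t1 + w2 * t2 = 0) (hvt : v1 * t1 + v2 * t2 ≠ 0) : w1 = 0 ∧ w2 = 0 := by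
  have h1 : (w1 * v1 + w2 * v2) * (v1 * t1 + v2 * t2) = 0 := by
    linear_combination (v1 ^ 2 + v2 ^ 2) * ht - (t1 * v2 - t2 * v1) * hp
  have h2 : w1 * v1 + w2 * v2 = 0 := (mul_eq_zero.1 h1).resolve_right hvt
  constructor
  · apply (mul_eq_zero.1 (show w1 * (v1 ^ 2 + v2 ^ 2) = 0 by
      linear_combination v1 * h2 + v2 * hp)).resolve_right hv
  · apply (mul_eq_zero.1 (show w2 * (v1 ^ 2 + v2 ^ 2) = 0 by
      linear_combination v2 * h2 - v1 * hp)).resolve_right hv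

theorem Up_le {e L R a1 a2 b1 b2 N1 N2 : ℝ} (he0 : 0 < e) (he1 : e < 1) (hL : 0 < L)
    (hR : 0 < R) (hG : Gram a1 a2 b1 b2 N1 N2) (hN : N1 ^ 2 + N2 ^ 2 < 1) :
    (Up e L R a1 a2 b1 b2).encard ≤ (EE e N1 N2 L R).encard := by
  obtain ⟨g1, g2, g3⟩ := hG
  have hvt : ∀ X Y : ℝ, (X * a1 + Y * b1) * (-Y * a1 + (X + e) * b1) +
      (X * a2 + Y * b2) * (-Y * a2 + (X + e) * b2) = BB e N1 N2 X Y := by
    intro X Y
    unfold BB nu
    linear_combination (-X * Y) * g1 + (Y * (X + e)) * g2 + (X * (X + e) - Y ^ 2) * g3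
  have hvv : ∀ X Y : ℝ, X ^ 2 + Y ^ 2 = 1 → (X * a1 + Y * b1) ^ 2 + (X * a2 + Y * b2) ^ 2 =
      qq N1 N2 X Y := by
    intro X Y h
    unfold qq nu
    linear_combination h + X ^ 2 * g1 + Y ^ 2 * g2 + 2 * X * Y * g3
  have hvtne : ∀ X Y q1 q2 : ℝ, X ^ 2 + Y ^ 2 = 1 → 0 < Y →
      q1 * (X * a2 + Y * b2) = q2 * (X * a1 + Y * b1) →
      L * e * Y = R * kk e X * (q1 * (-Y * a1 + (X + e) * b1) +
      q2 * (-Y * a2 + (X + e) * b2)) → (X * a1 + Y * b1) * (-Y * a1 + (X + e) * b1) +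
      (X * a2 + Y * b2) * (-Y * a2 + (X + e) * b2) ≠ 0 := by
    intro X Y q1 q2 h hY h1 h2 h3
    have hq := qq_pos (N1 := N1) (N2 := N2) hN h
    rw [← hvv X Y h] at hq
    have h4 : (q1 * (-Y * a1 + (X + e) * b1) + q2 * (-Y * a2 + (X + e) * b2)) *
        ((X * a1 + Y * b1) ^ 2 + (X * a2 + Y * b2) ^ 2) = 0 := by
      linear_combination (q1 * (X * a1 + Y * b1) + q2 * (X * a2 + Y * b2)) * h3 +
        ((-Y * a1 + (X + e) * b1) * (X * a2 + Y * b2) -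
          (-Y * a2 + (X + e) * b2) * (X * a1 + Y * b1)) * h1
    have h5 := (mul_eq_zero.1 h4).resolve_right hq.ne'
    rw [h5, mul_zero] at h2
    have : 0 < L * e * Y := by positivity
    linarith
  refine Set.encard_le_encard_of_injOn (f := fun p : ℝ × ℝ × ℝ × ℝ => Real.arccos p.1) ?_ ?_
  · rintro ⟨X, Y, q1, q2⟩ ⟨⟨h1, h2, h3, h4⟩, hY⟩
    simp only at h1 h2 h3 h4 hY
    obtain ⟨c1, c2, c3⟩ := arc_of h1 hY
    refine ⟨c3, ?_⟩
    simp only
    rw [c1, c2, ← hvt X Y, ← hvv X Y h1]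
    generalize X * a1 + Y * b1 = v1 at *
    generalize X * a2 + Y * b2 = v2 at *
    generalize -Y * a1 + (X + e) * b1 = t1 at *
    generalize -Y * a2 + (X + e) * b2 = t2 at *
    have h5 : (q1 * t1 + q2 * t2) ^ 2 * (v1 ^ 2 + v2 ^ 2) = (v1 * t1 + v2 * t2) ^ 2 := by
      linear_combination (-2*q1*t1*t2*v1 + q1*t1^2*v2 - q1*t2^2*v2 + 2*q2*t1*t2*v2 +
        q2*t1^2*v1 - q2*t2^2*v1) * h3 + (v1 * t1 + v2 * t2) ^ 2 * h2
    calc (R * (kk e X * (v1 * t1 + v2 * t2))) ^ 2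
        = (R * kk e X) ^ 2 * (v1 * t1 + v2 * t2) ^ 2 := by ring
      _ = (R * kk e X * (q1 * t1 + q2 * t2)) ^ 2 * (v1 ^ 2 + v2 ^ 2) := by rw [← h5]; ring
      _ = (L * e * Y) ^ 2 * (v1 ^ 2 + v2 ^ 2) := by rw [← h4]
      _ = (L * e) ^ 2 * (Y ^ 2 * (v1 ^ 2 + v2 ^ 2)) := by ring
  · rintro ⟨X, Y, q1, q2⟩ ⟨⟨h1, h2, h3, h4⟩, hY⟩ ⟨X', Y', q1', q2'⟩ ⟨⟨h1', h2', h3', h4'⟩, hY'⟩ hE
    simp only at h1 h2 h3 h4 hY h1' h2' h3' h4' hY' hE
    obtain ⟨hX, hY2⟩ := arc_inj h1 hY h1' hY' hE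
    subst hX hY2
    have hne := hvtne X Y q1 q2 h1 hY h3 h4
    have hq := qq_pos (N1 := N1) (N2 := N2) hN h1
    rw [← hvv X Y h1] at hq
    have hk : 0 < kk e X := kk_pos he0 he1 (by nlinarith)
    have h5 : R * kk e X * ((q1 - q1') * (-Y * a1 + (X + e) * b1) +
        (q2 - q2') * (-Y * a2 + (X + e) * b2)) = 0 := by
      linear_combination h4' - h4
    have h6 := (mul_eq_zero.1 h5).resolve_left (by positivity)
    obtain ⟨h7, h8⟩ := vec_zero hq.ne' (w1 := q1 - q1') (w2 := q2 - q2')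
      (by linear_combination h3 - h3') h6 hne
    have h9 : q1 = q1' := by linarith
    have h10 : q2 = q2' := by linarith
    rw [h9, h10]

/-- the part with `Y = 0`, first case -/
lemma Zero_empty {e L R a1 a2 b1 b2 N1 N2 : ℝ} (he0 : 0 < e) (he1 : e < 1)
    (hR : 0 < R) (hG : Gram a1 a2 b1 b2 N1 N2) (hN : N1 * N2 ≠ 0) :
    {p ∈ Sol e L R a1 a2 b1 b2 | p.2.1 = 0} = ∅ := by
  obtain ⟨g1, g2, g3⟩ := hG
  ext ⟨X, Y, q1, q2⟩
  simp only [mem_ofPred_eq, mem_empty_iff_false, iff_false, not_and]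
  rintro ⟨h1, h2, h3, h4⟩ hY
  simp only at h1 h2 h3 h4 hY
  subst hY
  have hk : 0 < kk e X := kk_pos he0 he1 (by nlinarith)
  have hX : X ≠ 0 := by
    intro h; rw [h] at h1; norm_num at h1
  have hXe : X + e ≠ 0 := by
    intro h
    have : X = -e := by linarith
    rw [this] at h1
    nlinarith
  have h5 : R * kk e X * (X + e) * (q1 * b1 + q2 * b2) = 0 := by
    linear_combination -h4
  have h6 : q1 * b1 + q2 * b2 = 0 := (mul_eq_zero.1 h5).resolve_left (by positivity)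
  have h7 : X * (q1 * a2 - q2 * a1) = 0 := by linear_combination h3
  have h8 : q1 * a2 - q2 * a1 = 0 := (mul_eq_zero.1 h7).resolve_left hX
  apply hN
  linear_combination g3 + (a1 * b1 + a2 * b2) * h2 - (a1 * q1 + a2 * q2) * h6 +
    (q2 * b1 - q1 * b2) * h8

lemma Zero_le {e L R a1 a2 b1 b2 N1 N2 : ℝ} (he0 : 0 < e) (he1 : e < 1)
    (hR : 0 < R) (hG : Gram a1 a2 b1 b2 N1 N2) (hN : N1 * N2 = 0) :
    {p ∈ Sol e L R a1 a2 b1 b2 | p.2.1 = 0}.encard ≤ 4 := by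
  obtain ⟨g1, g2, g3⟩ := hG
  set T : Set (ℝ × ℝ) := {q | q.1 ^ 2 + q.2 ^ 2 = 1 ∧ a2 * q.1 + (-a1) * q.2 = 0 ∧
    b1 * q.1 + b2 * q.2 = 0} with hT
  have hT2 : T.encard ≤ 2 := by
    by_cases ha : a1 = 0 ∧ a2 = 0
    · have hb : b1 ≠ 0 ∨ b2 ≠ 0 := by
        by_contra hb
        push Not at hb
        rw [ha.1, ha.2] at g1
        rw [hb.1, hb.2] at g2
        have : (N1 * N2) ^ 2 = 1 := by
          rw [mul_pow]
          have e1 : N1 ^ 2 = 1 := by linarith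
          have e2 : N2 ^ 2 = 1 := by linarith
          rw [e1, e2]; norm_num
        rw [hN] at this
        norm_num at this
      have hsub : T ⊆ {q : ℝ × ℝ | q.1 ^ 2 + q.2 ^ 2 = 1 ∧ b1 * q.1 + b2 * q.2 = 0} :=
        fun q hq => ⟨hq.1, hq.2.2⟩
      exact (Set.encard_le_encard hsub).trans (line_circle b1 b2 0 hb)
    · have ha' : a2 ≠ 0 ∨ -a1 ≠ 0 := by
        by_contra h
        push Not at h
        exact ha ⟨by linarith [h.2], h.1⟩
      have hsub : T ⊆ {q : ℝ × ℝ | q.1 ^ 2 + q.2 ^ 2 = 1 ∧ a2 * q.1 + (-a1) * q.2 = 0} :=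
        fun q hq => ⟨hq.1, hq.2.1⟩
      exact (Set.encard_le_encard hsub).trans (line_circle a2 (-a1) 0 ha')
  have hsub : {p ∈ Sol e L R a1 a2 b1 b2 | p.2.1 = 0} ⊆
      (fun q : ℝ × ℝ => ((1 : ℝ), (0 : ℝ), q.1, q.2)) '' T ∪
      (fun q : ℝ × ℝ => ((-1 : ℝ), (0 : ℝ), q.1, q.2)) '' T := by
    rintro ⟨X, Y, q1, q2⟩ ⟨⟨h1, h2, h3, h4⟩, hY⟩
    simp only at h1 h2 h3 h4 hY
    subst hY
    have hk : 0 < kk e X := kk_pos he0 he1 (by nlinarith)
    have hX : X ≠ 0 := by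
      intro h; rw [h] at h1; norm_num at h1
    have hXe : X + e ≠ 0 := by
      intro h
      have : X = -e := by linarith
      rw [this] at h1
      nlinarith
    have h5 : R * kk e X * (X + e) * (q1 * b1 + q2 * b2) = 0 := by
      linear_combination -h4
    have h6 : q1 * b1 + q2 * b2 = 0 := (mul_eq_zero.1 h5).resolve_left (by positivity)
    have h7 : X * (q1 * a2 - q2 * a1) = 0 := by linear_combination h3
    have h8 : q1 * a2 - q2 * a1 = 0 := (mul_eq_zero.1 h7).resolve_left hX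
    have hmem : (q1, q2) ∈ T := ⟨h2, by simp only; linarith, by simp only; linarith⟩
    have hX2 : (X - 1) * (X + 1) = 0 := by linear_combination h1
    rcases mul_eq_zero.1 hX2 with h | h
    · left
      exact ⟨(q1, q2), hmem, by rw [show X = 1 by linarith]⟩
    · right
      exact ⟨(q1, q2), hmem, by rw [show X = -1 by linarith]⟩
  refine (Set.encard_le_encard hsub).trans ((Set.encard_union_le _ _).trans ?_)
  have e1 := (Set.encard_image_le (fun q : ℝ × ℝ => ((1 : ℝ), (0 : ℝ), q.1, q.2)) T).trans hT2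
  have e2 := (Set.encard_image_le (fun q : ℝ × ℝ => ((-1 : ℝ), (0 : ℝ), q.1, q.2)) T).trans hT2
  refine (add_le_add e1 e2).trans ?_
  norm_num

/-- the lower half is an upper half -/
lemma Down_le (e L R a1 a2 b1 b2 : ℝ) :
    {p ∈ Sol e L R a1 a2 b1 b2 | p.2.1 < 0}.encard ≤ (Up e L R a1 a2 (-b1) (-b2)).encard := by
  refine Set.encard_le_encard_of_injOn
    (f := fun p : ℝ × ℝ × ℝ × ℝ => (p.1, -p.2.1, p.2.2.1, p.2.2.2)) ?_ ?_
  · rintro ⟨X, Y, q1, q2⟩ ⟨⟨h1, h2, h3, h4⟩, hY⟩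
    simp only at h1 h2 h3 h4 hY
    refine ⟨⟨?_, h2, ?_, ?_⟩, ?_⟩ <;> simp only
    · linear_combination h1
    · linear_combination h3
    · linear_combination -h4
    · linarith
  · rintro ⟨X, Y, q1, q2⟩ _ ⟨X', Y', q1', q2'⟩ _ hE
    simp only [Prod.mk.injEq, neg_inj] at hE ⊢
    exact hE

lemma Sol_le (e L R a1 a2 b1 b2 : ℝ) : (Sol e L R a1 a2 b1 b2).encard ≤
    (Up e L R a1 a2 b1 b2).encard + (Up e L R a1 a2 (-b1) (-b2)).encard +
      {p ∈ Sol e L R a1 a2 b1 b2 | p.2.1 = 0}.encard := by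
  have hsub : Sol e L R a1 a2 b1 b2 ⊆ (Up e L R a1 a2 b1 b2 ∪
      {p ∈ Sol e L R a1 a2 b1 b2 | p.2.1 < 0}) ∪ {p ∈ Sol e L R a1 a2 b1 b2 | p.2.1 = 0} := by
    intro p hp
    rcases lt_trichotomy p.2.1 0 with h | h | h
    · left; right; exact ⟨hp, h⟩
    · right; exact ⟨hp, h⟩
    · left; left; exact ⟨hp, h⟩
  refine (Set.encard_le_encard hsub).trans ((Set.encard_union_le _ _).trans ?_)
  refine add_le_add ((Set.encard_union_le _ _).trans ?_) le_rfl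
  exact add_le_add le_rfl (Down_le e L R a1 a2 b1 b2)

/-- perpendicular planes: the arcs -/
theorem Up_perp {e L R a1 a2 b1 b2 N1 N2 : ℝ} (he0 : 0 < e) (hL : 0 < L)
    (hG : Gram a1 a2 b1 b2 N1 N2) (hN : N1 ^ 2 + N2 ^ 2 = 1) :
    (Up e L R a1 a2 b1 b2).encard ≤ (EG e N1 N2 L R).encard + 2 ∧
      (N2 = 0 → (Up e L R a1 a2 b1 b2).encard ≤ (EG e N1 N2 L R).encard) := by
  obtain ⟨g1, g2, g3⟩ := hG
  obtain ⟨u1, hu1⟩ : ∃ u1, u1 = N1 * b1 - N2 * a1 := ⟨_, rfl⟩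
  obtain ⟨u2, hu2⟩ : ∃ u2, u2 = N1 * b2 - N2 * a2 := ⟨_, rfl⟩
  have hu : u1 ^ 2 + u2 ^ 2 = 1 := by
    rw [hu1, hu2]
    linear_combination N2 ^ 2 * g1 + N1 ^ 2 * g2 - 2 * N1 * N2 * g3 + hN
  have ha : (N1 * a1 + N2 * b1) ^ 2 + (N1 * a2 + N2 * b2) ^ 2 = 0 := by
    linear_combination N1 ^ 2 * g1 + N2 ^ 2 * g2 + 2 * N1 * N2 * g3 -
      (N1 ^ 2 + N2 ^ 2) * hN
  have ha1 : N1 * a1 + N2 * b1 = 0 := by nlinarith [sq_nonneg (N1 * a2 + N2 * b2)]
  have ha2 : N1 * a2 + N2 * b2 = 0 := by nlinarith [sq_nonneg (N1 * a1 + N2 * b1)]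
  have ea1 : a1 = -N2 * u1 := by rw [hu1]; linear_combination N1 * ha1 - a1 * hN
  have ea2 : a2 = -N2 * u2 := by rw [hu2]; linear_combination N1 * ha2 - a2 * hN
  have eb1 : b1 = N1 * u1 := by rw [hu1]; linear_combination N2 * ha1 - b1 * hN
  have eb2 : b2 = N1 * u2 := by rw [hu2]; linear_combination N2 * ha2 - b2 * hN
  clear hu1 hu2
  subst ea1 ea2 eb1 eb2
  -- equations
  have eq1 : ∀ X Y q1 q2 : ℝ, q1 * (X * (-N2 * u2) + Y * (N1 * u2)) =
      q2 * (X * (-N2 * u1) + Y * (N1 * u1)) ↔ (N1 * Y - N2 * X) * (q1 * u2 - q2 * u1) = 0 := by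
    intro X Y q1 q2
    constructor
    · intro h; linear_combination h
    · intro h; linear_combination h
  have eq2 : ∀ X Y q1 q2 : ℝ, L * e * Y = R * kk e X * (q1 * (-Y * (-N2 * u1) +
      (X + e) * (N1 * u1)) + q2 * (-Y * (-N2 * u2) + (X + e) * (N1 * u2))) ↔
      L * e * Y = R * (kk e X * bb e N1 N2 X Y) * (q1 * u1 + q2 * u2) := by
    intro X Y q1 q2
    unfold bb
    constructor
    · intro h; linear_combination h
    · intro h; linear_combination h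
  -- regular part
  have hreg : {p ∈ Up e L R (-N2 * u1) (-N2 * u2) (N1 * u1) (N1 * u2) |
      N1 * p.2.1 - N2 * p.1 ≠ 0}.encard ≤ (EG e N1 N2 L R).encard := by
    refine Set.encard_le_encard_of_injOn (f := fun p : ℝ × ℝ × ℝ × ℝ => Real.arccos p.1) ?_ ?_
    · rintro ⟨X, Y, q1, q2⟩ ⟨⟨⟨h1, h2, h3, h4⟩, hY⟩, hs⟩
      simp only at h1 h2 h3 h4 hY hs
      obtain ⟨c1, c2, c3⟩ := arc_of h1 hY
      refine ⟨c3, ?_⟩
      simp only
      rw [c1, c2]
      rw [eq1] at h3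
      rw [eq2] at h4
      have h5 := (mul_eq_zero.1 h3).resolve_left hs
      have h6 : (q1 * u1 + q2 * u2) ^ 2 = 1 := by
        linear_combination (u1 ^ 2 + u2 ^ 2) * h2 + hu - (q1 * u2 - q2 * u1) * h5
      rw [h4, mul_pow _ (q1 * u1 + q2 * u2), h6, mul_one]
    · rintro ⟨X, Y, q1, q2⟩ ⟨⟨⟨h1, h2, h3, h4⟩, hY⟩, hs⟩ ⟨X', Y', q1', q2'⟩
        ⟨⟨⟨h1', h2', h3', h4'⟩, hY'⟩, hs'⟩ hE
      simp only at h1 h2 h3 h4 hY hs h1' h2' h3' h4' hY' hs' hE
      obtain ⟨hX, hY2⟩ := arc_inj h1 hY h1' hY' hE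
      subst hX hY2
      rw [eq1] at h3 h3'
      rw [eq2] at h4 h4'
      have h5 := (mul_eq_zero.1 h3).resolve_left hs
      have h5' := (mul_eq_zero.1 h3').resolve_left hs
      have hK : R * (kk e X * bb e N1 N2 X Y) ≠ 0 := by
        intro h
        rw [h, zero_mul] at h4
        have : 0 < L * e * Y := by positivity
        linarith
      have h6 : R * (kk e X * bb e N1 N2 X Y) * ((q1 - q1') * u1 + (q2 - q2') * u2) = 0 := by
        linear_combination h4' - h4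
      have h7 := (mul_eq_zero.1 h6).resolve_left hK
      have h8 : q1 - q1' = 0 := by
        linear_combination u1 * h7 + u2 * (h5 - h5') - (q1 - q1') * hu
      have h9 : q2 - q2' = 0 := by
        linear_combination u2 * h7 - u1 * (h5 - h5') - (q2 - q2') * hu
      have h10 : q1 = q1' := by linarith
      have h11 : q2 = q2' := by linarith
      rw [h10, h11]
  -- singular part
  have hsing : {p ∈ Up e L R (-N2 * u1) (-N2 * u2) (N1 * u1) (N1 * u2) |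
      N1 * p.2.1 - N2 * p.1 = 0}.encard ≤ 2 := by
    obtain ⟨Y0, hY0⟩ : ∃ Y0, Y0 = |N2| := ⟨_, rfl⟩
    obtain ⟨X0, hX0⟩ : ∃ X0, X0 = N1 * Y0 / N2 := ⟨_, rfl⟩
    by_cases hc : R * (kk e X0 * bb e N1 N2 X0 Y0) = 0 ∨ N2 = 0
    · have : {p ∈ Up e L R (-N2 * u1) (-N2 * u2) (N1 * u1) (N1 * u2) |
          N1 * p.2.1 - N2 * p.1 = 0} = ∅ := by
        ext ⟨X, Y, q1, q2⟩
        simp only [mem_ofPred_eq, mem_empty_iff_false, iff_false, not_and]
        rintro ⟨⟨h1, h2, h3, h4⟩, hY⟩ hs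
        simp only at h1 h2 h3 h4 hY hs
        rw [eq2] at h4
        have hYN : Y ^ 2 = N2 ^ 2 := by
          linear_combination N2 ^ 2 * h1 - Y ^ 2 * hN + (N1 * Y + N2 * X) * hs
        have hN2 : N2 ≠ 0 := by
          intro h
          rw [h] at hYN
          have : 0 < Y ^ 2 := by positivity
          nlinarith
        have hc' := hc.resolve_right hN2
        have hYY : Y = Y0 := by
          rw [hY0, ← abs_of_pos hY]
          exact (sq_eq_sq_iff_abs_eq_abs _ _).1 hYN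
        have hXX : X = X0 := by
          rw [hX0, ← hYY]
          field_simp
          linarith
        rw [hXX, hYY, hc', zero_mul] at h4
        have : 0 < L * e * Y := by positivity
        rw [hYY] at this
        linarith
      rw [this]; simp
    · push Not at hc
      have hsub : {p ∈ Up e L R (-N2 * u1) (-N2 * u2) (N1 * u1) (N1 * u2) |
          N1 * p.2.1 - N2 * p.1 = 0} ⊆ (fun q : ℝ × ℝ => (X0, Y0, q.1, q.2)) ''
          {q : ℝ × ℝ | q.1 ^ 2 + q.2 ^ 2 = 1 ∧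
            (R * (kk e X0 * bb e N1 N2 X0 Y0) * u1) * q.1 +
            (R * (kk e X0 * bb e N1 N2 X0 Y0) * u2) * q.2 = L * e * Y0} := by
        rintro ⟨X, Y, q1, q2⟩ ⟨⟨⟨h1, h2, h3, h4⟩, hY⟩, hs⟩
        simp only at h1 h2 h3 h4 hY hs
        rw [eq2] at h4
        have hYN : Y ^ 2 = N2 ^ 2 := by
          linear_combination N2 ^ 2 * h1 - Y ^ 2 * hN + (N1 * Y + N2 * X) * hs
        have hN2 : N2 ≠ 0 := hc.2
        have hYY : Y = Y0 := by
          rw [hY0, ← abs_of_pos hY]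
          exact (sq_eq_sq_iff_abs_eq_abs _ _).1 hYN
        have hXX : X = X0 := by
          rw [hX0, ← hYY]
          field_simp
          linarith
        rw [hXX, hYY] at h4 ⊢
        refine ⟨(q1, q2), ⟨h2, ?_⟩, rfl⟩
        simp only
        rw [h4]; ring
      refine (Set.encard_le_encard hsub).trans ((Set.encard_image_le _ _).trans ?_)
      apply line_circle
      by_contra h
      push Not at h
      have e1 : u1 = 0 := (mul_eq_zero.1 h.1).resolve_left hc.1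
      have e2 : u2 = 0 := (mul_eq_zero.1 h.2).resolve_left hc.1
      rw [e1, e2] at hu
      norm_num at hu
  constructor
  · have hsub : Up e L R (-N2 * u1) (-N2 * u2) (N1 * u1) (N1 * u2) ⊆
        {p ∈ Up e L R (-N2 * u1) (-N2 * u2) (N1 * u1) (N1 * u2) |
          N1 * p.2.1 - N2 * p.1 ≠ 0} ∪
        {p ∈ Up e L R (-N2 * u1) (-N2 * u2) (N1 * u1) (N1 * u2) |
          N1 * p.2.1 - N2 * p.1 = 0} := by
      intro p hp
      by_cases h : N1 * p.2.1 - N2 * p.1 = 0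
      · right; exact ⟨hp, h⟩
      · left; exact ⟨hp, h⟩
    exact (Set.encard_le_encard hsub).trans ((Set.encard_union_le _ _).trans
      (add_le_add hreg hsing))
  · intro hN2
    refine le_trans (Set.encard_le_encard ?_) hreg
    intro p hp
    refine ⟨hp, ?_⟩
    have hY := hp.2
    rw [hN2, zero_mul, sub_zero]
    rw [hN2] at hN
    have hN1 : N1 ≠ 0 := by
      intro h; rw [h] at hN; norm_num at hN
    exact mul_ne_zero hN1 hY.ne'

lemma Zb_le_one {e N1 : ℝ} (hN : N1 ≠ 0) : (Zb e N1 0).encard ≤ ((1 : ℕ) : ℕ∞) := by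
  refine (Set.encard_le_encard ?_).trans ((cos_unique (-e)).trans (by norm_num))
  rintro θ ⟨h1, h2⟩
  refine ⟨h1, ?_⟩
  unfold bb at h2
  have h3 : N1 * (Real.cos θ + e) = 0 := by linear_combination h2
  have h4 := (mul_eq_zero.1 h3).resolve_left hN
  linarith

lemma EG_le_one {e N2 L R : ℝ} (he0 : 0 < e) (he1 : e < 1) (hL : 0 < L) (hR : 0 < R)
    (hN : N2 ^ 2 = 1) : (EG e 0 N2 L R).encard ≤ 1 := by
  refine (Set.encard_le_encard ?_).trans (cos_unique ((L * e / R - 1) / e))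
  rintro θ ⟨h1, h2⟩
  refine ⟨h1, ?_⟩
  have hs := sin_pos' h1
  have hk := kk_pos he0 he1 (Real.neg_one_le_cos θ)
  have h3 : (R * kk e (Real.cos θ)) ^ 2 * Real.sin θ ^ 2 = (L * e) ^ 2 * Real.sin θ ^ 2 := by
    unfold bb at h2
    linear_combination h2 + (-(R * kk e (Real.cos θ)) ^ 2 * Real.sin θ ^ 2) * hN
  have h4 : (R * kk e (Real.cos θ)) ^ 2 = (L * e) ^ 2 :=
    mul_right_cancel₀ (pow_ne_zero 2 hs.ne') h3
  have h5 : R * kk e (Real.cos θ) = L * e :=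
    (pow_left_inj₀ (by positivity) (by positivity) two_ne_zero).1 h4
  unfold kk at h5
  rw [eq_div_iff he0.ne']
  have h6 : L * e / R = 1 + e * Real.cos θ := by
    rw [div_eq_iff hR.ne']; linarith
  rw [h6]; ring

theorem Sol_le_ten {e L R a1 a2 b1 b2 N1 N2 : ℝ} (he0 : 0 < e) (he1 : e < 1) (hL : 0 < L)
    (hR : 0 < R) (hG : Gram a1 a2 b1 b2 N1 N2) : (Sol e L R a1 a2 b1 b2).encard ≤ 10 := by
  refine (Sol_le e L R a1 a2 b1 b2).trans ?_
  rcases lt_or_eq_of_le hG.mu with hN | hN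
  · have hN' : N1 ^ 2 + (-N2) ^ 2 < 1 := by rw [neg_sq]; exact hN
    have u1 := Up_le he0 he1 hL hR hG hN
    have u2 := Up_le he0 he1 hL hR hG.flip hN'
    by_cases h12 : N1 * N2 = 0
    · have h12' : N1 * -N2 = 0 := by linarith
      have e1 := EE_le (L := L) he0 he1 hR hN 1 1 (ZB_le_one he0 h12) (ZD_le_one he0 h12 hN)
      have e2 := EE_le (L := L) he0 he1 hR hN' 1 1 (ZB_le_one he0 h12')
        (ZD_le_one he0 h12' hN')
      have e3 := Zero_le (L := L) he0 he1 hR hG h12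
      refine (add_le_add (add_le_add (u1.trans e1) (u2.trans e2)) e3).trans ?_
      norm_num
    · obtain ⟨n, m, hnm, hn, hm⟩ := ZB_total he1 h12
      obtain ⟨n', m', hnm', hn', hm'⟩ := ZD_total he0 he1 h12 hN
      have e1 := EE_le (L := L) he0 he1 hR hN n n' hn hn'
      have e2 := EE_le (L := L) he0 he1 hR hN' m m' hm hm'
      rw [Zero_empty he0 he1 hR hG h12, Set.encard_empty, add_zero]
      refine (add_le_add (u1.trans e1) (u2.trans e2)).trans ?_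
      have : ((n + n' : ℕ) : ℕ∞) + 1 + (((m + m' : ℕ) : ℕ∞) + 1) = ((n + n' + 1 + (m + m' + 1) : ℕ) : ℕ∞) := by
        push_cast; ring
      rw [this]
      exact_mod_cast (by omega : n + n' + 1 + (m + m' + 1) ≤ 10)
  · have hN' : N1 ^ 2 + (-N2) ^ 2 = 1 := by rw [neg_sq]; exact hN
    obtain ⟨u1, u1'⟩ := Up_perp he0 hL hG hN (R := R)
    obtain ⟨u2, u2'⟩ := Up_perp he0 hL hG.flip hN' (R := R)
    by_cases h2 : N2 = 0
    · subst h2
      have hN1 : N1 ≠ 0 := by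
        intro h; rw [h] at hN; norm_num at hN
      have v1 := u1' rfl
      have v2 := u2' neg_zero
      rw [neg_zero] at v2
      have hz := ZG_zero (N2 := 0) he0 he1 hN1 (by rw [mul_zero])
      have e1 := EG_le (L := L) he0 he1 hR 1 0 (Zb_le_one hN1) hz
      have e3 := Zero_le (L := L) he0 he1 hR hG (mul_zero N1)
      refine (add_le_add (add_le_add (v1.trans e1) (v2.trans e1)) e3).trans ?_
      norm_num
    · by_cases h1 : N1 = 0
      · subst h1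
        have hN2 : N2 ^ 2 = 1 := by linarith
        have e1 := EG_le_one he0 he1 hL hR hN2
        have e2 := EG_le_one he0 he1 hL hR (N2 := -N2) (by rw [neg_sq]; exact hN2)
        have e3 := Zero_le (L := L) he0 he1 hR hG (zero_mul N2)
        refine (add_le_add (add_le_add (u1.trans (add_le_add e1 le_rfl))
          (u2.trans (add_le_add e2 le_rfl))) e3).trans ?_
        norm_num
      · obtain ⟨n, m, hnm, hn, hm⟩ := Zb_total (N2 := N2) he1 h1
        obtain ⟨n', m', hnm', hn', hm'⟩ := ZG_total (N2 := N2) he0 he1 h1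
        have e1 := EG_le (L := L) he0 he1 hR n n' hn hn'
        have e2 := EG_le (L := L) he0 he1 hR m m' hm hm'
        rw [Zero_empty he0 he1 hR hG (mul_ne_zero h1 h2), Set.encard_empty, add_zero]
        refine (add_le_add (u1.trans (add_le_add e1 le_rfl))
          (u2.trans (add_le_add e2 le_rfl))).trans ?_
        have : ((n + n' : ℕ) : ℕ∞) + 1 + 2 + (((m + m' : ℕ) : ℕ∞) + 1 + 2) =
            ((n + n' + 3 + (m + m' + 3) : ℕ) : ℕ∞) := by
          push_cast; ring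
        rw [this]
        exact_mod_cast (by omega : n + n' + 3 + (m + m' + 3) ≤ 10)

end Pool.Agent.W819.Kep
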