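import Mathlib

/-! Rolle counting on an open interval. -/

set_option autoImplicit false

namespace Pool.Agent.W819.Kep

open Set

/-- Rolle: if the derivative has at most `n` zeros in `(a,b)`, the function has at most `n+1`. -/
theorem rolle_le {a b : ℝ} {f f' : ℝ → ℝ} (hf : ∀ x ∈ Ioo a b, HasDerivAt f (f' x) x) (n : ℕ)
    (h : {x ∈ Ioo a b | f' x = 0}.encard ≤ n) : {x ∈ Ioo a b | f x = 0}.encard ≤ n + 1 := by
  by_contra hcon
  push Not at hcon
  have h2 : ((n + 2 : ℕ) : ℕ∞) ≤ {x ∈ Ioo a b | f x = 0}.encard := by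
    have h3 := Order.add_one_le_of_lt hcon
    have h4 : ((n + 2 : ℕ) : ℕ∞) = (n : ℕ∞) + 1 + 1 := by push_cast; ring
    rw [h4]; exact h3
  obtain ⟨t, hts, htc⟩ := Set.exists_subset_encard_eq h2
  have hfin : t.Finite := Set.finite_of_encard_eq_coe htc
  set T : Finset ℝ := hfin.toFinset with hT
  have hTm : ∀ x, x ∈ T ↔ x ∈ t := fun x => hfin.mem_toFinset
  have hTc : T.card = n + 2 := by
    have h5 : t.encard = T.card := hfin.encard_eq_coe_toFinset_card
    rw [htc] at h5
    exact_mod_cast h5.symm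
  have hne : T.Nonempty := by
    rw [← Finset.card_pos, hTc]; omega
  set M := T.max' hne with hM
  have hnext : ∀ x ∈ T.erase M, ∃ c, f' c = 0 ∧ c ∈ Ioo a b ∧ x < c ∧ ∀ z ∈ T, x < z → c < z := by
    intro x hx
    obtain ⟨hxM, hxT⟩ := Finset.mem_erase.1 hx
    have hlt : x < M := lt_of_le_of_ne (T.le_max' x hxT) hxM
    set F := T.filter (fun z => x < z) with hF
    have hFne : F.Nonempty := ⟨M, Finset.mem_filter.2 ⟨T.max'_mem hne, hlt⟩⟩
    set y := F.min' hFne with hy
    have hyF := F.min'_mem hFne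
    obtain ⟨hyT, hxy⟩ := Finset.mem_filter.1 hyF
    have hxI := (hts ((hTm x).1 hxT))
    have hyI := (hts ((hTm _).1 hyT))
    obtain ⟨c, hc, hc0⟩ := exists_hasDerivAt_eq_zero (f := f) (f' := f') hxy
      (fun z hz => (hf z ⟨lt_of_lt_of_le hxI.1.1 hz.1,
        lt_of_le_of_lt hz.2 hyI.1.2⟩).continuousAt.continuousWithinAt)
      (by rw [hxI.2, hyI.2])
      (fun z hz => hf z ⟨hxI.1.1.trans hz.1, hz.2.trans hyI.1.2⟩)
    refine ⟨c, hc0, ⟨hxI.1.1.trans hc.1, hc.2.trans hyI.1.2⟩, hc.1, fun z hz hxz => ?_⟩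
    exact lt_of_lt_of_le hc.2 (F.min'_le z (Finset.mem_filter.2 ⟨hz, hxz⟩))
  choose! g hg0 hgI hg1 hg2 using hnext
  have hinj : Set.InjOn g (T.erase M : Finset ℝ) := by
    intro x hx y hy hxy
    have hx' : x ∈ T.erase M := hx
    have hy' : y ∈ T.erase M := hy
    rcases lt_trichotomy x y with hlt | heq | hgt
    · have h1 := hg2 x hx' y (Finset.mem_of_mem_erase hy') hlt
      have h3 := hg1 y hy'
      rw [← hxy] at h3
      exact absurd h3 (not_lt.2 h1.le)
    · exact heq
    · have h1 := hg2 y hy' x (Finset.mem_of_mem_erase hx') hgt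
      have h3 := hg1 x hx'
      rw [hxy] at h3
      exact absurd h3 (not_lt.2 h1.le)
  have hsub : ((T.erase M).image g : Finset ℝ) ≤ {x ∈ Ioo a b | f' x = 0} := by
    intro y hy
    obtain ⟨x, hx, rfl⟩ := Finset.mem_image.1 (Finset.mem_coe.1 hy)
    exact ⟨hgI x hx, hg0 x hx⟩
  have hcard : ((T.erase M).image g).card = n + 1 := by
    rw [Finset.card_image_of_injOn hinj, Finset.card_erase_of_mem (T.max'_mem hne), hTc]
    omega
  have h6 := Set.encard_le_encard hsub
  rw [Set.encard_coe_eq_coe_finsetCard, hcard] at h6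
  have h7 := h6.trans h
  have h8 : n + 1 ≤ n := by exact_mod_cast h7
  omega

/-- the set of square roots has at most two elements -/
lemma sq_encard (K : ℝ) : {y : ℝ | y ^ 2 = K}.encard ≤ 2 := by
  have h : {y : ℝ | y ^ 2 = K} ⊆ {Real.sqrt K, -Real.sqrt K} := by
    intro y hy
    have hy' : y ^ 2 = K := hy
    have hs : Real.sqrt K ^ 2 = K := Real.sq_sqrt (by rw [← hy']; positivity)
    have : (y - Real.sqrt K) * (y + Real.sqrt K) = 0 := by nlinarith
    rcases mul_eq_zero.1 this with h | h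
    · left; linarith
    · right; simp only [mem_singleton_iff]; linarith
  refine (Set.encard_le_encard h).trans ((Set.encard_insert_le _ _).trans ?_)
  rw [Set.encard_singleton]
  norm_num

/-- a line and the unit circle -/
lemma line_circle (a b c : ℝ) (hab : a ≠ 0 ∨ b ≠ 0) :
    {q : ℝ × ℝ | q.1 ^ 2 + q.2 ^ 2 = 1 ∧ a * q.1 + b * q.2 = c}.encard ≤ 2 := by
  have hpos : 0 < a ^ 2 + b ^ 2 := by
    rcases hab with h | h <;> positivity
  refine (Set.encard_le_encard_of_injOn (t := {y : ℝ | y ^ 2 = a ^ 2 + b ^ 2 - c ^ 2})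
    (f := fun q : ℝ × ℝ => a * q.2 - b * q.1) ?_ ?_).trans (sq_encard _)
  · intro q hq
    obtain ⟨h1, h2⟩ := hq
    show (a * q.2 - b * q.1) ^ 2 = a ^ 2 + b ^ 2 - c ^ 2
    rw [← h2]
    linear_combination (a ^ 2 + b ^ 2) * h1
  · intro q hq r hr h
    obtain ⟨h1, h2⟩ := hq
    obtain ⟨h3, h4⟩ := hr
    have h5 : a * q.2 - b * q.1 = a * r.2 - b * r.1 := h
    have h6 : (a ^ 2 + b ^ 2) * (q.1 - r.1) = 0 := by
      linear_combination a * (h2 - h4) - b * h5
    have h7 : (a ^ 2 + b ^ 2) * (q.2 - r.2) = 0 := by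
      linear_combination b * (h2 - h4) + a * h5
    have h8 : q.1 - r.1 = 0 := by
      rcases mul_eq_zero.1 h6 with h | h
      · exact absurd h hpos.ne'
      · exact h
    have h9 : q.2 - r.2 = 0 := by
      rcases mul_eq_zero.1 h7 with h | h
      · exact absurd h hpos.ne'
      · exact h
    exact Prod.ext (by linarith) (by linarith)

end Pool.Agent.W819.Kep
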