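import Pool.Agent.W819.Kep.Arc

/-! The sign of `DD` for `cos θ ≤ -e`. -/

set_option autoImplicit false

noncomputable section

namespace Pool.Agent.W819.Kep

open Set

theorem star_id (e N1 N2 X Y : ℝ) (h : X ^ 2 + Y ^ 2 = 1) :
    -(N1 ^ 2 + N2 ^ 2) * DD e N1 N2 X Y =
      (1 - (N1 ^ 2 + N2 ^ 2)) * ((N1 ^ 2 + N2 ^ 2) * e ^ 2 * Y ^ 3 -
        (N1 * X + N2 * Y) ^ 3 * (N2 * ((1 + e * X) * Y ^ 2 + (-X - e) ^ 2) - e * Y ^ 3 * N1)) +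
      (N1 * Y - N2 * X) ^ 2 * (N1 ^ 2 * Y * ((1 + e * X) * Y ^ 2 + (-X - e) ^ 2) +
        N1 * N2 * ((-X - e) * Y ^ 2 + 2 * e * Y ^ 4 + (-X - e) ^ 2 * (-X)) +
        N2 ^ 2 * e * (-X) * Y ^ 3) := by
  simp only [DD, BB, qq, nu, kk]
  linear_combination (-2*N1^2*N2^2*Y - N1^2*Y*e^2 - N1^4*Y - N2^2*Y*e^2 - N2^4*Y
    + 3*N1*N2^3*X*Y^2 + N1*N2^3*X*e^2 + 2*N1*N2^3*X^2*e + N1*N2^3*X^3 - N1*N2^3*Y^2*e
    - 3*N1^2*N2^2*X*Y*e + N1^2*N2^2*Y*e^2 + 3*N1^3*N2*X*Y^2 + N1^3*N2*X*e^2 + 2*N1^3*N2*X^2*e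
    + N1^3*N2*X^3 - N1^3*N2*Y^2*e - 3*N1^4*X*Y*e - N1^4*Y^3 + N2^4*Y*e^2 + N2^4*Y^3
    - N1*N2^3*Y^4*e + 2*N1^2*N2^2*X*Y^3*e + N1^3*N2*X^2*Y^2*e - 2*N1^3*N2*Y^4*e
    - N1^4*X*Y^3*e + N2^4*X*Y^3*e + N1*N2^5*Y^4*e + 3*N1^2*N2^4*X*Y^3*e
    + 3*N1^3*N2^3*X^2*Y^2*e + N1^3*N2^3*Y^4*e + 3*N1^4*N2^2*X*Y^3*e + N1^4*N2^2*X^3*Y*e
    + 3*N1^5*N2*X^2*Y^2*e + N1^6*X^3*Y*e) * h

lemma half_le {e : ℝ} (he0 : 0 < e) (he : 1 / 2 ≤ e ^ 2) : 1 / 2 ≤ e := by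
  by_contra hc
  push Not at hc
  nlinarith

lemma w_le {e E Y : ℝ} (he0 : 0 < e) (he : 1 / 2 ≤ e ^ 2) (hEe : e ≤ E) (hE1 : E ≤ 1)
    (h : E ^ 2 + Y ^ 2 = 1) : (1 - e * E) * Y ^ 2 + (E - e) ^ 2 ≤ e ^ 2 := by
  have h1 : (1 - e * E) * Y ^ 2 + (E - e) ^ 2 = e ^ 2 + (1 - e * E * (3 - E ^ 2)) := by
    linear_combination (1 - e * E) * h
  have h2 : e ^ 2 ≤ e * E := by nlinarith
  have h3 : E ^ 2 ≤ 1 := pow_le_one₀ (he0.le.trans hEe) hE1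
  have h4 : e * E * 2 ≤ e * E * (3 - E ^ 2) := by
    apply mul_le_mul_of_nonneg_left (by linarith)
    exact mul_nonneg he0.le (he0.le.trans hEe)
  rw [h1]
  linarith

theorem star (e N1 N2 X Y : ℝ) (he0 : 0 < e) (he : 1 / 2 ≤ e ^ 2) (h1 : 0 < N1) (h2 : 0 < N2)
    (hN : N1 ^ 2 + N2 ^ 2 ≤ 1) (h : X ^ 2 + Y ^ 2 = 1) (hY : 0 < Y) (hX : X ≤ -e) :
    DD e N1 N2 X Y < 0 := by
  obtain ⟨E, hE⟩ : ∃ E, E = -X := ⟨_, rfl⟩
  obtain ⟨a, ha⟩ : ∃ a, a = E - e := ⟨_, rfl⟩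
  obtain ⟨k, hk⟩ : ∃ k, k = 1 + e * X := ⟨_, rfl⟩
  obtain ⟨μ, hμ⟩ : ∃ μ, μ = N1 ^ 2 + N2 ^ 2 := ⟨_, rfl⟩
  have hXE : X = -E := by rw [hE]; ring
  have hEe : e ≤ E := by rw [hE]; linarith
  have ha0 : 0 ≤ a := by rw [ha]; linarith
  have hE0 : 0 < E := lt_of_lt_of_le he0 hEe
  have hEY : E ^ 2 + Y ^ 2 = 1 := by rw [hE]; linarith [h, (by ring : (-X) ^ 2 = X ^ 2)]
  have hE1 : E ≤ 1 := by nlinarith
  have hkk : k = Y ^ 2 + a * E := by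
    rw [hk, hXE, ha]; linear_combination -hEY
  have hkY : Y ^ 2 ≤ k := by rw [hkk]; nlinarith [mul_nonneg ha0 hE0.le]
  have hk0 : 0 < k := lt_of_lt_of_le (by positivity) hkY
  have hμ0 : 0 < μ := by rw [hμ]; positivity
  have hid := star_id e N1 N2 X Y h
  rw [← hμ, ← hk, hXE] at hid
  have haX : - -E - e = a := by rw [ha]; ring
  rw [haX] at hid
  obtain ⟨w, hw⟩ : ∃ w, w = k * Y ^ 2 + a ^ 2 := ⟨_, rfl⟩
  obtain ⟨ν, hν⟩ : ∃ ν, ν = N1 * -E + N2 * Y := ⟨_, rfl⟩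
  obtain ⟨t, ht⟩ : ∃ t, t = N2 * w - e * Y ^ 3 * N1 := ⟨_, rfl⟩
  obtain ⟨S, hS⟩ : ∃ S, S = N1 * Y - N2 * -E := ⟨_, rfl⟩
  obtain ⟨Δ, hΔ⟩ : ∃ Δ, Δ = N1 ^ 2 * Y * w + N1 * N2 * (a * Y ^ 2 + 2 * e * Y ^ 4 + a ^ 2 * - -E) +
    N2 ^ 2 * e * - -E * Y ^ 3 := ⟨_, rfl⟩
  rw [← hw, ← hν, ← ht, ← hS, ← hΔ] at hid
  have hw0 : 0 < w := by rw [hw]; positivity
  have hS1 : N1 * Y < S := by rw [hS]; nlinarith [mul_pos h2 hE0]
  have hS0 : 0 < S := lt_trans (by positivity) hS1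
  have hΔ1 : N1 ^ 2 * Y * w ≤ Δ := by
    rw [hΔ, neg_neg]
    have : 0 ≤ N1 * N2 * (a * Y ^ 2 + 2 * e * Y ^ 4 + a ^ 2 * E) := by positivity
    have : 0 ≤ N2 ^ 2 * e * E * Y ^ 3 := by positivity
    linarith
  have hΔ0 : 0 < Δ := lt_of_lt_of_le (by positivity) hΔ1
  have hSD : 0 < S ^ 2 * Δ := by positivity
  have hX1 : DD e N1 N2 (-E) Y = DD e N1 N2 X Y := by rw [hXE]
  rw [← hX1]
  suffices hpos : 0 < (1 - μ) * (μ * e ^ 2 * Y ^ 3 - ν ^ 3 * t) + S ^ 2 * Δ by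
    rw [← hid] at hpos
    by_contra hcon
    push Not at hcon
    nlinarith [mul_nonneg hμ0.le hcon]
  have hμ1 : μ ≤ 1 := by rw [hμ]; exact hN
  by_cases hcase : ν ^ 3 * t ≤ μ * e ^ 2 * Y ^ 3
  · have := mul_nonneg (sub_nonneg.2 hμ1) (sub_nonneg.2 hcase)
    linarith
  push Not at hcase
  have hνt : 0 < ν ^ 3 * t := lt_trans (by positivity) hcase
  rcases lt_trichotomy ν 0 with hneg | hzero | hpos
  · -- negative case
    obtain ⟨n, hn⟩ : ∃ n, n = N1 ^ 2 := ⟨_, rfl⟩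
    have hn0 : 0 < n := by rw [hn]; positivity
    have hnμ : n ≤ μ := by rw [hn, hμ]; exact le_add_of_nonneg_right (sq_nonneg N2)
    have ht0 : t < 0 := by
      by_contra hc
      push Not at hc
      have h3 : ν ^ 3 < 0 := Odd.pow_neg (by decide) hneg
      exact absurd (mul_nonpos_of_nonpos_of_nonneg h3.le hc) (not_le.2 hνt)
    have b1 : 0 < -ν := by linarith
    have b2 : -ν ≤ N1 * E := by
      have := mul_pos h2 hY
      rw [hν]; linarith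
    have b3 : -t ≤ e * Y ^ 3 * N1 := by
      have := mul_pos h2 hw0
      rw [ht]; linarith
    have b4 : ν ^ 3 * t ≤ e * E ^ 3 * Y ^ 3 * n ^ 2 := by
      have c1 : (-ν) ^ 3 ≤ (N1 * E) ^ 3 := pow_le_pow_left₀ b1.le b2 3
      have c2 : (-ν) ^ 3 * (-t) ≤ (N1 * E) ^ 3 * (e * Y ^ 3 * N1) :=
        mul_le_mul c1 b3 (by linarith) (by positivity)
      calc ν ^ 3 * t = (-ν) ^ 3 * (-t) := by ring
        _ ≤ (N1 * E) ^ 3 * (e * Y ^ 3 * N1) := c2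
        _ = e * E ^ 3 * Y ^ 3 * n ^ 2 := by rw [hn]; ring
    have hY3 : 0 < e * Y ^ 3 := by positivity
    have b5 : μ * e < E ^ 3 * n ^ 2 := by
      have : (e * Y ^ 3) * (μ * e) < (e * Y ^ 3) * (E ^ 3 * n ^ 2) := by
        have d1 : (e * Y ^ 3) * (μ * e) = μ * e ^ 2 * Y ^ 3 := by ring
        have d2 : (e * Y ^ 3) * (E ^ 3 * n ^ 2) = e * E ^ 3 * Y ^ 3 * n ^ 2 := by ring
        rw [d1, d2]; linarith
      exact lt_of_mul_lt_mul_left this hY3.le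
    have b6 : e < E ^ 3 * n := by
      have c1 : μ * e < μ * (E ^ 3 * n) := by
        calc μ * e < E ^ 3 * n ^ 2 := b5
          _ = n * (E ^ 3 * n) := by ring
          _ ≤ μ * (E ^ 3 * n) := by gcongr
      exact lt_of_mul_lt_mul_left c1 hμ0.le
    have hE3 : E ^ 3 ≤ 1 := pow_le_one₀ hE0.le hE1
    have hen : e ≤ n := by
      have := mul_le_mul_of_nonneg_right hE3 hn0.le
      linarith
    -- main estimate
    have b7 : ν ^ 3 * t - μ * e ^ 2 * Y ^ 3 ≤ e * Y ^ 3 * (n * (E ^ 3 * n - e)) := by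
      have d1 : n * e ^ 2 * Y ^ 3 ≤ μ * e ^ 2 * Y ^ 3 := by gcongr
      have d2 : e * Y ^ 3 * (n * (E ^ 3 * n - e)) =
          e * E ^ 3 * Y ^ 3 * n ^ 2 - n * e ^ 2 * Y ^ 3 := by ring
      rw [d2]; linarith
    have b8 : (1 - μ) * (ν ^ 3 * t - μ * e ^ 2 * Y ^ 3) ≤
        (1 - n) * (e * Y ^ 3 * (n * (E ^ 3 * n - e))) := by
      have c1 : 0 ≤ ν ^ 3 * t - μ * e ^ 2 * Y ^ 3 := by linarith
      exact mul_le_mul (by linarith) b7 c1 (by linarith)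
    have b9 : n ^ 2 * Y ^ 3 * w < S ^ 2 * Δ := by
      have c1 : (N1 * Y) ^ 2 < S ^ 2 := by
        have : 0 < N1 * Y := by positivity
        exact pow_lt_pow_left₀ hS1 this.le (by norm_num)
      calc n ^ 2 * Y ^ 3 * w = (N1 * Y) ^ 2 * (N1 ^ 2 * Y * w) := by rw [hn]; ring
        _ < S ^ 2 * (N1 ^ 2 * Y * w) := by
            have : 0 < N1 ^ 2 * Y * w := by positivity
            exact mul_lt_mul_of_pos_right c1 this
        _ ≤ S ^ 2 * Δ := by gcongr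
    have b10 : (1 - n) * (e * (E ^ 3 * n - e)) ≤ n * w := by
      have c1 : 4 * E ^ 3 * ((1 - n) * (E ^ 3 * n - e)) ≤ (E ^ 3 - e) ^ 2 := by
        have d0 : (E ^ 3 - e) ^ 2 - 4 * E ^ 3 * ((1 - n) * (E ^ 3 * n - e)) =
            (E ^ 3 - E ^ 3 * n - (E ^ 3 * n - e)) ^ 2 := by ring
        have d1 := sq_nonneg (E ^ 3 - E ^ 3 * n - (E ^ 3 * n - e))
        rw [← d0] at d1
        linarith
      have c2 : E ^ 3 - e = a - E * Y ^ 2 := by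
        rw [ha]; linear_combination E * hEY
      have c3 : (E ^ 3 - e) ^ 2 ≤ a ^ 2 + Y ^ 4 := by
        rw [c2]
        have d1 : 0 ≤ a * (E * Y ^ 2) := by positivity
        have d2 : E ^ 2 * Y ^ 4 ≤ 1 * Y ^ 4 := by
          gcongr
          exact pow_le_one₀ hE0.le hE1
        have d3 : (a - E * Y ^ 2) ^ 2 = a ^ 2 - 2 * (a * (E * Y ^ 2)) + E ^ 2 * Y ^ 4 := by ring
        rw [d3]; linarith
      have c4 : a ^ 2 + Y ^ 4 ≤ w := by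
        have d1 := mul_le_mul_of_nonneg_right hkY (sq_nonneg Y)
        have d2 : Y ^ 4 = Y ^ 2 * Y ^ 2 := by ring
        rw [hw, d2]; linarith
      have c5 : 1 ≤ 4 * E ^ 3 := by
        have d1 : e ^ 3 ≤ E ^ 3 := pow_le_pow_left₀ he0.le hEe 3
        have d2 : 1 / 2 ≤ e := half_le he0 he
        have d3 := mul_le_mul_of_nonneg_left he he0.le
        have d4 : e * e ^ 2 = e ^ 3 := by ring
        rw [d4] at d3
        linarith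
      have c6 : 0 ≤ (1 - n) * (E ^ 3 * n - e) :=
        mul_nonneg (by linarith) (by linarith)
      have c7 : (1 - n) * (E ^ 3 * n - e) ≤ w := by
        have d1 := mul_le_mul_of_nonneg_right c5 c6
        linarith
      calc (1 - n) * (e * (E ^ 3 * n - e)) = e * ((1 - n) * (E ^ 3 * n - e)) := by ring
        _ ≤ n * w := mul_le_mul hen c7 c6 hn0.le
    have b11 : (1 - n) * (e * Y ^ 3 * (n * (E ^ 3 * n - e))) ≤ n ^ 2 * Y ^ 3 * w := by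
      have : (1 - n) * (e * Y ^ 3 * (n * (E ^ 3 * n - e))) =
          (n * Y ^ 3) * ((1 - n) * (e * (E ^ 3 * n - e))) := by ring
      rw [this]
      calc (n * Y ^ 3) * ((1 - n) * (e * (E ^ 3 * n - e))) ≤ (n * Y ^ 3) * (n * w) := by gcongr
        _ = n ^ 2 * Y ^ 3 * w := by ring
    linarith
  · rw [hzero] at hνt; norm_num at hνt
  · -- positive case: contradiction
    exfalso
    have ht0 : 0 < t := by
      by_contra hc
      push Not at hc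
      have : 0 < ν ^ 3 := by positivity
      exact absurd (mul_nonpos_of_nonneg_of_nonpos this.le hc) (not_le.2 hνt)
    have b1 : ν ≤ N2 * Y := by
      have := mul_pos h1 hE0
      rw [hν]; linarith
    have b2 : t ≤ N2 * w := by
      have : 0 < e * Y ^ 3 * N1 := by positivity
      rw [ht]; linarith
    have b3 : w ≤ e ^ 2 := by
      have c1 := w_le he0 he hEe hE1 hEY
      have c2 : k = 1 - e * E := by rw [hk, hXE]; ring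
      rw [hw, ha, c2]
      exact c1
    have c1 : ν ^ 3 ≤ (N2 * Y) ^ 3 := pow_le_pow_left₀ hpos.le b1 3
    have c2 : ν ^ 3 * t ≤ (N2 * Y) ^ 3 * (N2 * w) :=
      mul_le_mul c1 b2 ht0.le (by positivity)
    have c3 : (N2 * Y) ^ 3 * (N2 * w) ≤ μ * e ^ 2 * Y ^ 3 := by
      have d1 : N2 ^ 2 ≤ 1 := by linarith [sq_nonneg N1]
      have d2 : N2 ^ 2 ≤ μ := by rw [hμ]; linarith [sq_nonneg N1]
      have d3 : N2 ^ 4 ≤ μ := by
        have := mul_le_mul_of_nonneg_left d1 (sq_nonneg N2)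
        have d4 : N2 ^ 4 = N2 ^ 2 * N2 ^ 2 := by ring
        rw [d4]; linarith
      calc (N2 * Y) ^ 3 * (N2 * w) = N2 ^ 4 * w * Y ^ 3 := by ring
        _ ≤ μ * e ^ 2 * Y ^ 3 := by gcongr
    linarith

end Pool.Agent.W819.Kep
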