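import Pool.Agent.W819.Kep.ZerosD

/-! The zeros of `BB` and of the auxiliary functions of the perpendicular case. -/

set_option autoImplicit false

noncomputable section

namespace Pool.Agent.W819.Kep

open Set Polynomial

lemma half_angle {θ : ℝ} (h : θ ∈ Ioo 0 Real.pi) : 0 < Real.tan (θ / 2) ∧
    Real.cos θ * (1 + Real.tan (θ / 2) ^ 2) = 1 - Real.tan (θ / 2) ^ 2 ∧
    Real.sin θ * (1 + Real.tan (θ / 2) ^ 2) = 2 * Real.tan (θ / 2) := by
  have h1 : 0 < θ / 2 := by linarith [h.1]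
  have h2 : θ / 2 < Real.pi / 2 := by linarith [h.2]
  have hc : 0 < Real.cos (θ / 2) := Real.cos_pos_of_mem_Ioo ⟨by linarith [Real.pi_pos], h2⟩
  have hcs := Real.cos_sq_add_sin_sq (θ / 2)
  have hcos : Real.cos θ = Real.cos (θ / 2) ^ 2 - Real.sin (θ / 2) ^ 2 := by
    have := Real.cos_two_mul (θ / 2)
    rw [show 2 * (θ / 2) = θ by ring] at this
    rw [this]; linarith
  have hsin : Real.sin θ = 2 * Real.sin (θ / 2) * Real.cos (θ / 2) := by
    have := Real.sin_two_mul (θ / 2)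
    rwa [show 2 * (θ / 2) = θ by ring] at this
  refine ⟨Real.tan_pos_of_pos_of_lt_pi_div_two h1 h2, ?_, ?_⟩
  · rw [Real.tan_eq_sin_div_cos, hcos]
    field_simp
    linear_combination (Real.cos (θ / 2) ^ 2 - Real.sin (θ / 2) ^ 2) * hcs
  · rw [Real.tan_eq_sin_div_cos, hsin]
    field_simp
    linear_combination Real.sin (θ / 2) * hcs

lemma coeff4 (a b c d f : ℝ) :
    (C a * X ^ 4 + C b * X ^ 3 + C c * X ^ 2 + C d * X + C f : ℝ[X]).coeff 4 = a := by
  simp [coeff_X, coeff_C]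

lemma tan_half_inj {a b : ℝ} (ha : a ∈ Ioo 0 Real.pi) (hb : b ∈ Ioo 0 Real.pi)
    (h : Real.tan (a / 2) = Real.tan (b / 2)) : a = b := by
  obtain ⟨_, h1, _⟩ := half_angle ha
  obtain ⟨_, h2, _⟩ := half_angle hb
  rw [← h] at h2
  have h3 : Real.cos a = Real.cos b := by
    have h4 : (Real.cos a - Real.cos b) * (1 + Real.tan (a / 2) ^ 2) = 0 := by
      linear_combination h1 - h2
    rcases mul_eq_zero.1 h4 with h | h
    · linarith
    · exact absurd h (by positivity)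
  exact Real.injOn_cos (Ioo_subset_Icc_self ha) (Ioo_subset_Icc_self hb) h3

/-- counting through a polynomial in `tan (θ/2)` -/
lemma count_poly (p : ℝ[X]) (hp : p ≠ 0) (d : ℕ) (hd : p.natDegree ≤ d) (Z1 Z2 : Set ℝ)
    (h1 : ∀ θ ∈ Z1, θ ∈ Ioo 0 Real.pi ∧ p.eval (Real.tan (θ / 2)) = 0)
    (h2 : ∀ θ ∈ Z2, θ ∈ Ioo 0 Real.pi ∧ p.eval (-Real.tan (θ / 2)) = 0) :
    ∃ n m : ℕ, n + m ≤ d ∧ Z1.encard ≤ n ∧ Z2.encard ≤ m := by
  classical
  set R := p.roots.toFinset with hR
  have hRc : R.card ≤ d :=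
    (Multiset.toFinset_card_le _).trans ((p.card_roots').trans hd)
  have hRm : ∀ t, p.eval t = 0 → t ∈ R := fun t ht => by
    rw [hR, Multiset.mem_toFinset, mem_roots hp]; exact ht
  refine ⟨(R.filter (fun t => 0 < t)).card, (R.filter (fun t => ¬ 0 < t)).card, ?_, ?_, ?_⟩
  · rw [Finset.card_filter_add_card_filter_not]
    exact hRc
  · have h3 : Z1.encard ≤ ((R.filter (fun t => 0 < t) : Finset ℝ) : Set ℝ).encard := by
      refine Set.encard_le_encard_of_injOn (f := fun θ => Real.tan (θ / 2)) ?_ ?_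
      · intro θ hθ
        obtain ⟨a, b⟩ := h1 θ hθ
        simp only [Finset.coe_filter, mem_ofPred_eq]
        exact ⟨hRm _ b, (half_angle a).1⟩
      · intro a ha b hb h
        exact tan_half_inj (h1 a ha).1 (h1 b hb).1 h
    rwa [Set.encard_coe_eq_coe_finsetCard] at h3
  · have h3 : Z2.encard ≤ ((R.filter (fun t => ¬ 0 < t) : Finset ℝ) : Set ℝ).encard := by
      refine Set.encard_le_encard_of_injOn (f := fun θ => -Real.tan (θ / 2)) ?_ ?_
      · intro θ hθ
        obtain ⟨a, b⟩ := h2 θ hθ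
        simp only [Finset.coe_filter, mem_ofPred_eq]
        refine ⟨hRm _ b, ?_⟩
        have := (half_angle a).1
        linarith
      · intro a ha b hb h
        have h' : -Real.tan (a / 2) = -Real.tan (b / 2) := h
        exact tan_half_inj (h2 a ha).1 (h2 b hb).1 (neg_injective h')
    rwa [Set.encard_coe_eq_coe_finsetCard] at h3

/-- at most four zeros of `BB` on the circle -/
theorem ZB_total {e N1 N2 : ℝ} (he1 : e < 1) (hN : N1 * N2 ≠ 0) :
    ∃ n m : ℕ, n + m ≤ 4 ∧ (ZB e N1 N2).encard ≤ n ∧ (ZB e N1 (-N2)).encard ≤ m := by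
  set p : ℝ[X] := (C (2 * e) * X + C (2 * e) * X ^ 3) +
    (C N1 + C (2 * N2) * X - C N1 * X ^ 2) *
      (C (-(N2 * (1 + e))) + C (2 * N1) * X + C (N2 * (1 - e)) * X ^ 2) with hp
  have hdeg : p.natDegree ≤ 4 := by
    rw [hp]
    compute_degree
  have hcoef : p.coeff 4 = -(N1 * N2 * (1 - e)) := by
    rw [hp]
    have e1 : (C (2 * e) * X + C (2 * e) * X ^ 3 : ℝ[X]) +
      (C N1 + C (2 * N2) * X - C N1 * X ^ 2) *
      (C (-(N2 * (1 + e))) + C (2 * N1) * X + C (N2 * (1 - e)) * X ^ 2) =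
      C (-(N1 * N2 * (1 - e))) * X ^ 4 +
      C (2 * e + 2 * N2 * (N2 * (1 - e)) - 2 * N1 * N1) * X ^ 3 +
      C (N1 * (N2 * (1 - e)) + 2 * N2 * (2 * N1) + N1 * (N2 * (1 + e))) * X ^ 2 +
      C (2 * e + 2 * N1 * N1 - 2 * N2 * (N2 * (1 + e))) * X + C (-(N1 * (N2 * (1 + e)))) := by
      simp only [map_mul, map_add, map_sub, map_neg, map_one, map_ofNat]
      ring
    rw [e1, coeff4]
  have hp0 : p ≠ 0 := by
    intro h
    rw [h, coeff_zero] at hcoef
    have : N1 * N2 * (1 - e) ≠ 0 := mul_ne_zero hN (by linarith)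
    apply this; linarith
  have hev : ∀ t X Y : ℝ, X * (1 + t ^ 2) = 1 - t ^ 2 → Y * (1 + t ^ 2) = 2 * t →
      p.eval t = (1 + t ^ 2) ^ 2 * BB e N1 N2 X Y := by
    intro t x y hx hy
    rw [hp]
    simp only [eval_add, eval_mul, eval_C, eval_X, eval_pow, eval_sub]
    have e1 : (1 + t ^ 2) ^ 2 * BB e N1 N2 x y = e * (y * (1 + t ^ 2)) * (1 + t ^ 2) +
        (N1 * (x * (1 + t ^ 2)) + N2 * (y * (1 + t ^ 2))) *
          (N1 * (y * (1 + t ^ 2)) - N2 * (x * (1 + t ^ 2) + e * (1 + t ^ 2))) := by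
      simp only [BB, nu]; ring
    rw [e1, hx, hy]
    ring
  refine count_poly p hp0 4 hdeg _ _ ?_ ?_
  · rintro θ ⟨h1, h2⟩
    refine ⟨h1, ?_⟩
    obtain ⟨_, hx, hy⟩ := half_angle h1
    rw [hev _ _ _ hx hy, h2, mul_zero]
  · rintro θ ⟨h1, h2⟩
    refine ⟨h1, ?_⟩
    obtain ⟨_, hx, hy⟩ := half_angle h1
    have hx' : Real.cos θ * (1 + (-Real.tan (θ / 2)) ^ 2) = 1 - (-Real.tan (θ / 2)) ^ 2 := by
      rw [neg_sq]; exact hx
    have hy' : -Real.sin θ * (1 + (-Real.tan (θ / 2)) ^ 2) = 2 * (-Real.tan (θ / 2)) := by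
      rw [neg_sq]; linarith
    rw [hev _ _ _ hx' hy']
    have : BB e N1 N2 (Real.cos θ) (-Real.sin θ) =
        -BB e N1 (-N2) (Real.cos θ) (Real.sin θ) := by
      simp only [BB, nu]; ring
    rw [this, h2]; simp

lemma ZB_le_one {e N1 N2 : ℝ} (he0 : 0 < e) (hN : N1 * N2 = 0) : (ZB e N1 N2).encard ≤ 1 := by
  by_cases h1 : N1 = 0
  · by_cases h2 : N2 = 0
    · have : ZB e N1 N2 = ∅ := by
        ext θ
        simp only [ZB, mem_ofPred_eq, mem_empty_iff_false, iff_false, not_and]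
        intro hθ h
        have hs := sin_pos' hθ
        rw [h1, h2] at h
        simp only [BB, nu] at h
        have : 0 < e * Real.sin θ := mul_pos he0 hs
        linarith
      rw [this]; simp
    · refine (Set.encard_le_encard ?_).trans (cos_unique (e / N2 ^ 2 - e))
      rintro θ ⟨hθ, h⟩
      refine ⟨hθ, ?_⟩
      have hs := (sin_pos' hθ).ne'
      rw [h1] at h
      simp only [BB, nu] at h
      have h3 : Real.sin θ * (e - N2 ^ 2 * (Real.cos θ + e)) = 0 := by linear_combination h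
      rcases mul_eq_zero.1 h3 with h | h
      · exact absurd h hs
      · field_simp
        linarith
  · have h2 : N2 = 0 := by
      rcases mul_eq_zero.1 hN with h | h
      · exact absurd h h1
      · exact h
    refine (Set.encard_le_encard ?_).trans (cos_unique (-e / N1 ^ 2))
    rintro θ ⟨hθ, h⟩
    refine ⟨hθ, ?_⟩
    have hs := (sin_pos' hθ).ne'
    rw [h2] at h
    simp only [BB, nu] at h
    have h3 : Real.sin θ * (e + N1 ^ 2 * Real.cos θ) = 0 := by linear_combination h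
    rcases mul_eq_zero.1 h3 with h | h
    · exact absurd h hs
    · field_simp
      linarith

lemma ZD_le_one {e N1 N2 : ℝ} (he0 : 0 < e) (hN : N1 * N2 = 0) (hN1 : N1 ^ 2 + N2 ^ 2 < 1) :
    (ZD e N1 N2).encard ≤ 1 := by
  by_cases h : N1 = 0 ∧ N2 = 0
  · have : ZD e N1 N2 = ∅ := by
      ext θ
      simp only [ZD, mem_ofPred_eq, mem_empty_iff_false, iff_false, not_and]
      intro hθ h0
      have hs := sin_pos' hθ
      rw [h.1, h.2] at h0
      have h1 : DD e 0 0 (Real.cos θ) (Real.sin θ) = -(e ^ 2 * Real.sin θ ^ 3) := by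
        have hcs := cs_sq θ
        simp only [DD, BB, qq, nu, kk]
        linear_combination (e ^ 2 * Real.sin θ) * hcs
      rw [h1] at h0
      have : 0 < e ^ 2 * Real.sin θ ^ 3 := by positivity
      linarith
    rw [this]; simp
  · refine ZD_le_one_of_empty hN1 ?_
    intro θ _ h0
    unfold Psi at h0
    rw [hN, zero_mul, zero_sub] at h0
    have h1 : N1 ^ 2 - N2 ^ 2 = 0 := by
      have h2 : e * (N1 ^ 2 - N2 ^ 2) = 0 := by linarith
      rcases mul_eq_zero.1 h2 with h | h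
      · exact absurd h he0.ne'
      · exact h
    apply h
    rcases mul_eq_zero.1 hN with h2 | h2
    · refine ⟨h2, ?_⟩
      rw [h2] at h1
      nlinarith
    · refine ⟨?_, h2⟩
      rw [h2] at h1
      nlinarith

end Pool.Agent.W819.Kep
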