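import Pool.Agent.W819.Kep.Star

/-! The zeros of `DD` on the half circle. -/

set_option autoImplicit false

noncomputable section

namespace Pool.Agent.W819.Kep

open Set

/-- zeros of `DD` on the open half circle -/
def ZD (e N1 N2 : ℝ) : Set ℝ :=
  {θ ∈ Ioo 0 Real.pi | DD e N1 N2 (Real.cos θ) (Real.sin θ) = 0}

/-- zeros of `BB` on the open half circle -/
def ZB (e N1 N2 : ℝ) : Set ℝ :=
  {θ ∈ Ioo 0 Real.pi | BB e N1 N2 (Real.cos θ) (Real.sin θ) = 0}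

/-- the auxiliary function -/
def Psi (e N1 N2 θ : ℝ) : ℝ :=
  N1 * N2 * (LL e (Real.cos θ) / Real.sin θ ^ 5) - e * (N1 ^ 2 - N2 ^ 2)

lemma cs_sq (θ : ℝ) : Real.cos θ ^ 2 + Real.sin θ ^ 2 = 1 := Real.cos_sq_add_sin_sq θ

lemma sin_pos' {θ : ℝ} (h : θ ∈ Ioo 0 Real.pi) : 0 < Real.sin θ := Real.sin_pos_of_mem_Ioo h

lemma kk_pos {e X : ℝ} (he0 : 0 < e) (he1 : e < 1) (hX : -1 ≤ X) : 0 < kk e X := by
  unfold kk; nlinarith

lemma hd_Psi (e N1 N2 : ℝ) {θ : ℝ} (h : θ ∈ Ioo 0 Real.pi) :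
    HasDerivAt (Psi e N1 N2)
      (N1 * N2 * (-5 * (Real.cos θ + e) * kk e (Real.cos θ) / Real.sin θ ^ 6)) θ := by
  have hs := (sin_pos' h).ne'
  have h1 := ((hd_L e θ).div ((Real.hasDerivAt_sin θ).pow 5) (pow_ne_zero 5 hs)).const_mul
    (N1 * N2)
  have h2 := h1.sub_const (e * (N1 ^ 2 - N2 ^ 2))
  refine h2.congr_deriv ?_
  congr 1
  have hcs := cs_sq θ
  clear h1 h2
  simp only [Pi.pow_apply, Nat.cast_ofNat, Nat.reduceSub, kk, LL]
  generalize Real.cos θ = X at *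
  generalize Real.sin θ = Y at *
  field_simp
  linear_combination (-(e * (5 - 15 * X ^ 2 + 10 * X ^ 4))) * hcs

lemma hd_Dq (e N1 N2 : ℝ) {θ : ℝ} (h : θ ∈ Ioo 0 Real.pi) :
    HasDerivAt (fun t => DD e N1 N2 (Real.cos t) (Real.sin t) / Real.sin t ^ 3)
      (-3 * qq N1 N2 (Real.cos θ) (Real.sin θ) * Real.sin θ * Psi e N1 N2 θ) θ := by
  have hs := (sin_pos' h).ne'
  have h1 := (hd_D e N1 N2 θ).div ((Real.hasDerivAt_sin θ).pow 3) (pow_ne_zero 3 hs)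
  refine h1.congr_deriv ?_
  have hk := key1 e N1 N2 (Real.cos θ) (Real.sin θ) (cs_sq θ)
  clear h1
  unfold Psi
  simp only [Pi.pow_apply, Nat.cast_ofNat, Nat.reduceSub]
  generalize Real.cos θ = X at *
  generalize Real.sin θ = Y at *
  field_simp
  linear_combination hk

lemma qq_pos {N1 N2 X Y : ℝ} (hN : N1 ^ 2 + N2 ^ 2 < 1) (h : X ^ 2 + Y ^ 2 = 1) :
    0 < qq N1 N2 X Y := by
  unfold qq nu
  nlinarith [sq_nonneg (N1 * Y - N2 * X)]

lemma cos_unique (c : ℝ) : {θ ∈ Ioo 0 Real.pi | Real.cos θ = c}.encard ≤ 1 := by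
  rw [Set.encard_le_one_iff]
  intro a b ha hb
  exact Real.injOn_cos (Ioo_subset_Icc_self ha.1) (Ioo_subset_Icc_self hb.1) (ha.2.trans hb.2.symm)

lemma ZD_eq (e N1 N2 : ℝ) : ZD e N1 N2 = {θ ∈ Ioo 0 Real.pi |
    (fun t => DD e N1 N2 (Real.cos t) (Real.sin t) / Real.sin t ^ 3) θ = 0} := by
  ext θ
  unfold ZD
  constructor
  · rintro ⟨h1, h2⟩
    refine ⟨h1, ?_⟩
    simp only [h2, zero_div]
  · rintro ⟨h1, h2⟩
    refine ⟨h1, ?_⟩
    have hs := (sin_pos' h1).ne'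
    simp only at h2
    rcases div_eq_zero_iff.1 h2 with h | h
    · exact h
    · exact absurd h (pow_ne_zero 3 hs)

lemma ZPsi_le {e N1 N2 : ℝ} (he0 : 0 < e) (he1 : e < 1) (hN : N1 * N2 ≠ 0) :
    {θ ∈ Ioo 0 Real.pi | Psi e N1 N2 θ = 0}.encard ≤ ((1 : ℕ) : ℕ∞) + 1 := by
  refine rolle_le (fun θ hθ => hd_Psi e N1 N2 hθ) 1 ?_
  refine (Set.encard_le_encard ?_).trans (cos_unique (-e))
  rintro θ ⟨h1, h2⟩
  refine ⟨h1, ?_⟩
  have hs := sin_pos' h1
  have hk := kk_pos he0 he1 (Real.neg_one_le_cos θ)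
  rcases mul_eq_zero.1 h2 with h | h
  · exact absurd h hN
  · rcases div_eq_zero_iff.1 h with h | h
    · rcases mul_eq_zero.1 h with h | h
      · linarith
      · exact absurd h hk.ne'
    · exact absurd h (by positivity)

lemma ZD_of_Psi {e N1 N2 : ℝ} (hN1 : N1 ^ 2 + N2 ^ 2 < 1) (n : ℕ)
    (h : {θ ∈ Ioo 0 Real.pi | Psi e N1 N2 θ = 0}.encard ≤ n) :
    (ZD e N1 N2).encard ≤ n + 1 := by
  rw [ZD_eq]
  refine rolle_le (fun θ hθ => hd_Dq e N1 N2 hθ) n ?_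
  refine (Set.encard_le_encard ?_).trans h
  rintro θ ⟨h1, h2⟩
  refine ⟨h1, ?_⟩
  have hs := sin_pos' h1
  have hq := qq_pos (X := Real.cos θ) (Y := Real.sin θ) hN1 (cs_sq θ)
  rcases mul_eq_zero.1 h2 with h | h
  · exfalso
    have : -3 * qq N1 N2 (Real.cos θ) (Real.sin θ) * Real.sin θ < 0 := by
      have := mul_pos hq hs
      linarith
    exact this.ne h
  · exact h

lemma ZD_le_three {e N1 N2 : ℝ} (he0 : 0 < e) (he1 : e < 1) (hN : N1 * N2 ≠ 0)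
    (hN1 : N1 ^ 2 + N2 ^ 2 < 1) : (ZD e N1 N2).encard ≤ 3 := by
  have h := ZD_of_Psi (e := e) hN1 2 ((ZPsi_le he0 he1 hN).trans (by norm_num))
  refine h.trans (by norm_num)

lemma ZD_le_one_of_empty {e N1 N2 : ℝ} (hN1 : N1 ^ 2 + N2 ^ 2 < 1)
    (h : ∀ θ ∈ Ioo 0 Real.pi, Psi e N1 N2 θ ≠ 0) : (ZD e N1 N2).encard ≤ 1 := by
  have h0 : {θ ∈ Ioo 0 Real.pi | Psi e N1 N2 θ = 0} = ∅ := by
    ext θ
    simp only [mem_ofPred_eq, mem_empty_iff_false, iff_false, not_and]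
    exact h θ
  have h1 := ZD_of_Psi (e := e) hN1 0 (by rw [h0]; simp)
  simpa using h1

lemma DD_neg (e N1 N2 X Y : ℝ) : DD e (-N1) (-N2) X Y = DD e N1 N2 X Y := by
  simp only [DD, BB, qq, nu, kk]; ring

lemma star' (e N1 N2 X Y : ℝ) (he0 : 0 < e) (he : 1 / 2 ≤ e ^ 2) (h12 : 0 < N1 * N2)
    (hN : N1 ^ 2 + N2 ^ 2 ≤ 1) (h : X ^ 2 + Y ^ 2 = 1) (hY : 0 < Y) (hX : X ≤ -e) :
    DD e N1 N2 X Y < 0 := by
  rcases lt_or_ge 0 N1 with h1 | h1
  · have h2 : 0 < N2 := (pos_iff_pos_of_mul_pos h12).1 h1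
    exact star e N1 N2 X Y he0 he h1 h2 hN h hY hX
  · have h1' : 0 < -N1 := by
      rcases h1.lt_or_eq with h | h
      · linarith
      · rw [h] at h12; simp at h12
    have h2 : 0 < -N2 := by
      have : 0 < (-N1) * (-N2) := by linarith [neg_mul_neg N1 N2]
      exact (pos_iff_pos_of_mul_pos this).1 h1'
    have := star e (-N1) (-N2) X Y he0 he h1' h2 (by rw [neg_sq, neg_sq]; exact hN) h hY hX
    rwa [DD_neg] at this

/-- if `e² ≥ 1/2` and `N₁ N₂ > 0` then `DD` has at most one zero on the half circle -/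
lemma ZD_le_one_star {e N1 N2 : ℝ} (he0 : 0 < e) (he1 : e < 1) (he : 1 / 2 ≤ e ^ 2)
    (h12 : 0 < N1 * N2) (hN1 : N1 ^ 2 + N2 ^ 2 < 1) : (ZD e N1 N2).encard ≤ 1 := by
  rw [Set.encard_le_one_iff]
  -- no two zeros
  have main : ∀ a b, a ∈ ZD e N1 N2 → b ∈ ZD e N1 N2 → ¬ a < b := by
    intro a b ha hb hab
    obtain ⟨ha1, ha2⟩ := ha
    obtain ⟨hb1, hb2⟩ := hb
    have hcos : ∀ θ ∈ Ioo 0 Real.pi, DD e N1 N2 (Real.cos θ) (Real.sin θ) = 0 →
        -e < Real.cos θ := by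
      intro θ hθ h0
      by_contra hc
      push Not at hc
      have := star' e N1 N2 _ _ he0 he h12 hN1.le (cs_sq θ) (sin_pos' hθ) hc
      linarith
    set c := Real.arccos (-e) with hc
    have hcc : Real.cos c = -e := Real.cos_arccos (by linarith) (by linarith)
    have hcI : c ∈ Ioo 0 Real.pi := by
      constructor
      · rw [hc, Real.arccos_pos]; linarith
      · refine lt_of_le_of_ne (Real.arccos_le_pi _) ?_
        intro h
        rw [h, Real.cos_pi] at hcc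
        linarith
    have hlt : ∀ θ ∈ Ioo 0 Real.pi, -e < Real.cos θ → θ < c := by
      intro θ hθ h
      rw [← hcc] at h
      exact (Real.strictAntiOn_cos.lt_iff_gt (Ioo_subset_Icc_self hcI)
        (Ioo_subset_Icc_self hθ)).1 h
    have hbc : b < c := hlt b hb1 (hcos b hb1 hb2)
    set f := fun t => DD e N1 N2 (Real.cos t) (Real.sin t) / Real.sin t ^ 3 with hf
    have hfa : f a = 0 := by simp only [hf, ha2, zero_div]
    have hfb : f b = 0 := by simp only [hf, hb2, zero_div]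
    have hfc : f c < 0 := by
      have h1 := star' e N1 N2 _ _ he0 he h12 hN1.le (cs_sq c) (sin_pos' hcI) hcc.le
      exact div_neg_of_neg_of_pos h1 (pow_pos (sin_pos' hcI) 3)
    have hd : ∀ x ∈ Ioo 0 Real.pi, HasDerivAt f
        (-3 * qq N1 N2 (Real.cos x) (Real.sin x) * Real.sin x * Psi e N1 N2 x) x :=
      fun x hx => hd_Dq e N1 N2 hx
    have hI : ∀ x, a ≤ x → x ≤ c → x ∈ Ioo 0 Real.pi := fun x h1 h2 =>
      ⟨ha1.1.trans_le h1, h2.trans_lt hcI.2⟩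
    -- Rolle between a and b
    obtain ⟨η, hη, hη0⟩ := exists_hasDerivAt_eq_zero hab
      (fun z hz => (hd z (hI z hz.1 (hz.2.trans hbc.le))).continuousAt.continuousWithinAt)
      (by rw [hfa, hfb])
      (fun z hz => hd z (hI z hz.1.le (hz.2.le.trans hbc.le)))
    -- mean value between b and c
    obtain ⟨ξ, hξ, hξ0⟩ := exists_hasDerivAt_eq_slope f _ hbc
      (fun z hz => (hd z (hI z (hab.le.trans hz.1) hz.2)).continuousAt.continuousWithinAt)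
      (fun z hz => hd z (hI z (hab.le.trans hz.1.le) hz.2.le))
    have hξI : ξ ∈ Ioo 0 Real.pi := hI ξ (hab.le.trans hξ.1.le) hξ.2.le
    have hηI : η ∈ Ioo 0 Real.pi := hI η hη.1.le (hη.2.le.trans hbc.le)
    have hpsiξ : 0 < Psi e N1 N2 ξ := by
      have h1 : (f c - f b) / (c - b) < 0 :=
        div_neg_of_neg_of_pos (by linarith) (by linarith)
      rw [← hξ0] at h1
      have hq := qq_pos (X := Real.cos ξ) (Y := Real.sin ξ) hN1 (cs_sq ξ)
      have hs := sin_pos' hξI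
      by_contra hcon
      push Not at hcon
      have h2 : 0 ≤ 3 * qq N1 N2 (Real.cos ξ) (Real.sin ξ) * Real.sin ξ * (-Psi e N1 N2 ξ) :=
        mul_nonneg (by positivity) (by linarith)
      linarith
    have hpsiη : Psi e N1 N2 η = 0 := by
      have hq := qq_pos (X := Real.cos η) (Y := Real.sin η) hN1 (cs_sq η)
      have hs := sin_pos' hηI
      rcases mul_eq_zero.1 hη0 with h | h
      · exfalso
        have h3 : 0 < qq N1 N2 (Real.cos η) (Real.sin η) * Real.sin η := mul_pos hq hs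
        linarith
      · exact h
    have hηξ : η < ξ := hη.2.trans hξ.1
    obtain ⟨ζ, hζ, hζ0⟩ := exists_hasDerivAt_eq_slope (Psi e N1 N2) _ hηξ
      (fun z hz => (hd_Psi e N1 N2 (hI z (hη.1.le.trans hz.1)
        (hz.2.trans hξ.2.le))).continuousAt.continuousWithinAt)
      (fun z hz => hd_Psi e N1 N2 (hI z (hη.1.le.trans hz.1.le) (hz.2.le.trans hξ.2.le)))
    have hζI : ζ ∈ Ioo 0 Real.pi := hI ζ (hη.1.le.trans hζ.1.le) (hζ.2.le.trans hξ.2.le)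
    have hζc : -e < Real.cos ζ := by
      rw [← hcc]
      exact Real.strictAntiOn_cos (Ioo_subset_Icc_self hζI) (Ioo_subset_Icc_self hcI)
        (hζ.2.trans hξ.2)
    have h4 : 0 < (Psi e N1 N2 ξ - Psi e N1 N2 η) / (ξ - η) :=
      div_pos (by rw [hpsiη]; linarith) (by linarith)
    rw [← hζ0] at h4
    have hk := kk_pos he0 he1 (Real.neg_one_le_cos ζ)
    have hs := sin_pos' hζI
    have h5 : N1 * N2 * (-5 * (Real.cos ζ + e) * kk e (Real.cos ζ) / Real.sin ζ ^ 6) < 0 := by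
      refine mul_neg_of_pos_of_neg h12 (div_neg_of_neg_of_pos ?_ (by positivity))
      have : 0 < (Real.cos ζ + e) * kk e (Real.cos ζ) := mul_pos (by linarith) hk
      linarith
    linarith
  intro a b ha hb
  rcases lt_trichotomy a b with h | h | h
  · exact absurd h (main a b ha hb)
  · exact h
  · exact absurd h (main b a hb ha)

/-- positivity of `LL` for `e² < 1/2` -/
lemma LL_pos {e X : ℝ} (he0 : 0 < e) (he : e ^ 2 < 1 / 2) (hX : X ^ 2 ≤ 1) : 0 < LL e X := by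
  unfold LL
  obtain ⟨v, hv⟩ : ∃ v, v = X ^ 2 := ⟨_, rfl⟩
  have hv0 : 0 ≤ v := by rw [hv]; positivity
  have hv1 : v ≤ 1 := by rw [hv]; exact hX
  obtain ⟨g, hg⟩ : ∃ g, g = 5 * X - 5 * X ^ 3 + 2 * X ^ 5 := ⟨_, rfl⟩
  have hg2 : g ^ 2 ≤ 9 / 2 := by
    have h1 : g ^ 2 = v * (5 - 5 * v + 2 * v ^ 2) ^ 2 := by rw [hg, hv]; ring
    have h2 : 9 / 2 - v * (5 - 5 * v + 2 * v ^ 2) ^ 2 =
        (v - 1 / 2) ^ 2 * (-4 * v ^ 3 + 16 * v ^ 2 - 28 * v + 18) := by ring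
    have h3 : 0 ≤ -4 * v ^ 3 + 16 * v ^ 2 - 28 * v + 18 := by
      nlinarith [mul_nonneg hv0 (sub_nonneg.2 hv1), mul_nonneg (mul_nonneg hv0 hv0)
        (sub_nonneg.2 hv1)]
    have h4 := mul_nonneg (sq_nonneg (v - 1 / 2)) h3
    rw [← h2] at h4
    rw [h1]; linarith
  rw [← hg]
  by_contra hcon
  push Not at hcon
  have h5 : 1 + e ^ 2 ≤ -(e * g) := by linarith
  have h6 : (1 + e ^ 2) ^ 2 ≤ (-(e * g)) ^ 2 := pow_le_pow_left₀ (by positivity) h5 2
  have h7 : (-(e * g)) ^ 2 ≤ e ^ 2 * (9 / 2) := by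
    have : (-(e * g)) ^ 2 = e ^ 2 * g ^ 2 := by ring
    rw [this]; gcongr
  have h8 : 0 < (1 - 2 * e ^ 2) * (2 - e ^ 2) := by
    apply mul_pos <;> linarith
  nlinarith

lemma Psi_ne {e N1 N2 : ℝ} (he0 : 0 < e) (he : e ^ 2 < 1 / 2) (hN : N1 * N2 ≠ 0)
    (hs : (N1 ^ 2 - N2 ^ 2) * (N1 * N2) ≤ 0) : ∀ θ ∈ Ioo 0 Real.pi, Psi e N1 N2 θ ≠ 0 := by
  intro θ hθ h0
  have hL := LL_pos (X := Real.cos θ) he0 he (Real.cos_sq_le_one θ)
  have hsp := sin_pos' hθ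
  have hM : 0 < LL e (Real.cos θ) / Real.sin θ ^ 5 := by positivity
  unfold Psi at h0
  have h1 : 0 < (N1 * N2) ^ 2 := by positivity
  have h2 := mul_pos h1 hM
  have h3 : (N1 * N2) ^ 2 * (LL e (Real.cos θ) / Real.sin θ ^ 5) =
      e * ((N1 ^ 2 - N2 ^ 2) * (N1 * N2)) := by
    linear_combination (N1 * N2) * h0
  have h4 : e * ((N1 ^ 2 - N2 ^ 2) * (N1 * N2)) ≤ 0 := mul_nonpos_of_nonneg_of_nonpos he0.le hs
  linarith

/-- total number of zeros of `DD` on the two half circles -/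
theorem ZD_total {e N1 N2 : ℝ} (he0 : 0 < e) (he1 : e < 1) (hN : N1 * N2 ≠ 0)
    (hN1 : N1 ^ 2 + N2 ^ 2 < 1) : ∃ n m : ℕ, n + m ≤ 4 ∧ (ZD e N1 N2).encard ≤ n ∧
      (ZD e N1 (-N2)).encard ≤ m := by
  have hN' : N1 * -N2 ≠ 0 := by
    intro h; apply hN; linarith
  have hN1' : N1 ^ 2 + (-N2) ^ 2 < 1 := by rw [neg_sq]; exact hN1
  have h3 := ZD_le_three he0 he1 hN hN1
  have h3' := ZD_le_three he0 he1 hN' hN1'
  have key : (ZD e N1 N2).encard ≤ 1 ∨ (ZD e N1 (-N2)).encard ≤ 1 := by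
    rcases le_or_gt (1 / 2) (e ^ 2) with he | he
    · rcases lt_or_gt_of_ne hN with h | h
      · right
        exact ZD_le_one_star he0 he1 he (by linarith) hN1'
      · left
        exact ZD_le_one_star he0 he1 he h hN1
    · rcases le_total ((N1 ^ 2 - N2 ^ 2) * (N1 * N2)) 0 with h | h
      · left
        exact ZD_le_one_of_empty hN1 (Psi_ne he0 he hN h)
      · right
        refine ZD_le_one_of_empty hN1' (Psi_ne he0 he hN' ?_)
        have : (N1 ^ 2 - (-N2) ^ 2) * (N1 * -N2) = -((N1 ^ 2 - N2 ^ 2) * (N1 * N2)) := by ring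
        rw [this]; linarith
  rcases key with h | h
  · exact ⟨1, 3, by norm_num, by exact_mod_cast h, by exact_mod_cast h3'⟩
  · exact ⟨3, 1, by norm_num, by exact_mod_cast h3, by exact_mod_cast h⟩

end Pool.Agent.W819.Kep
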